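import Pool.Agent.Helper82.CSB.G5a
import Pool.Agent.Helper50.CSB.G4

/-!
# The code (3,2,1) (piece G5)
-/

namespace H50R

open H45C Equiv MvPolynomial

variable {m : ℕ}

/-- the polynomial of the code (3,2,1) acts nonnegatively -/
theorem PP_321 (i : ℕ) : PP (hz m (i + 1) 3 * hz m (i + 2) 2 * hz m (i + 3) 1 -
    hz m (i + 1) 3 * hz m (i + 2) 3 - hz m (i + 1) 4 * hz m (i + 2) 1 * hz m (i + 3) 1 +
    hz m (i + 1) 5 * hz m (i + 2) 1) := by
  intro x
  apply NN_of_Om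
  have h : Om m (act m (hz m (i + 1) 3 * hz m (i + 2) 2 * hz m (i + 3) 1 -
      hz m (i + 1) 3 * hz m (i + 2) 3 - hz m (i + 1) 4 * hz m (i + 2) 1 * hz m (i + 3) 1 +
      hz m (i + 1) 5 * hz m (i + 2) 1) (bas x)) =
      Fk (Sj m (i + 1)) (Sj m (i + 2)) (Sj m (i + 3)) 3 (wd (om x)) := by
    rw [map_add, map_sub, map_sub, LinearMap.add_apply, LinearMap.sub_apply,
      LinearMap.sub_apply, map_add, map_sub, map_sub, act_mul_apply, act_mul_apply,
      act_mul_apply, act_mul_apply, act_mul_apply, act_mul_apply]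
    simp only [Om_act_hz, Om_bas, Fk, Dd]
    norm_num
    abel
  rw [h]
  have h1 := card_Sj_sdiff (i + 1) (i + 2) (Finset.univ : Finset (Fin (m + 1)))
  have h2 := card_Sj_sdiff (i + 2) (i + 3) (Finset.univ : Finset (Fin (m + 1)))
  exact Fk_pos (X := Finset.univ) (Sj_mono (by omega)) (Sj_mono (by omega)) (by omega)
    (by omega) (by omega) (wd_mem _ (om_nodup x) (om_toFinset x)) (WN.wd _)

theorem EE_321 (i : ℕ) (h : i + 3 ≤ m) : EE (vb m [(i, 3), (i + 1, 2), (i + 2, 1)]) :=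
  ⟨_, isSchub_321 i h, PP_321 i⟩

end H50R
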