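import Pool.Agent.Helper82.CSB.C4e
import Pool.Agent.Helper37.CSB.C3
import Pool.Agent.Helper13.CSB.C4

/-!
# The ten dual patterns (piece C5)
-/

namespace H50R

open H45C Equiv MvPolynomial

variable {m : ℕ}

theorem EE_211 (i : ℕ) (h : i + 3 ≤ m) : EE (vb m [(i, 2), (i + 1, 1), (i + 2, 1)]) :=
  EE_of_dual 3 i h [(0, 2), (1, 1), (2, 1)] [(0, 3), (2, 1)] (by decide) (by decide) w0_211
    (EE_two (m - 3 - i) 3 (m - 3 - i + 2) 1 (by omega) (by omega) (by omega) (by omega)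
      (by omega) (by omega))

theorem EE_121 (i : ℕ) (h : i + 3 ≤ m) : EE (vb m [(i, 1), (i + 1, 2), (i + 2, 1)]) :=
  EE_of_dual 3 i h [(0, 1), (1, 2), (2, 1)] [(0, 3), (1, 1)] (by decide) (by decide) w0_121
    (EE_two (m - 3 - i) 3 (m - 3 - i + 1) 1 (by omega) (by omega) (by omega) (by omega)
      (by omega) (by omega))

theorem EE_1121 (i : ℕ) (h : i + 4 ≤ m) :
    EE (vb m [(i, 1), (i + 1, 1), (i + 2, 2), (i + 3, 1)]) :=
  EE_of_dual 4 i h [(0, 1), (1, 1), (2, 2), (3, 1)] [(0, 4), (1, 1)] (by decide) (by decide)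
    w0_1121
    (EE_two (m - 4 - i) 4 (m - 4 - i + 1) 1 (by omega) (by omega) (by omega) (by omega)
      (by omega) (by omega))

theorem EE_1211 (i : ℕ) (h : i + 4 ≤ m) :
    EE (vb m [(i, 1), (i + 1, 2), (i + 2, 1), (i + 3, 1)]) :=
  EE_of_dual 4 i h [(0, 1), (1, 2), (2, 1), (3, 1)] [(0, 4), (2, 1)] (by decide) (by decide)
    w0_1211
    (EE_two (m - 4 - i) 4 (m - 4 - i + 2) 1 (by omega) (by omega) (by omega) (by omega)
      (by omega) (by omega))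

theorem EE_2111 (i : ℕ) (h : i + 4 ≤ m) :
    EE (vb m [(i, 2), (i + 1, 1), (i + 2, 1), (i + 3, 1)]) :=
  EE_of_dual 4 i h [(0, 2), (1, 1), (2, 1), (3, 1)] [(0, 4), (3, 1)] (by decide) (by decide)
    w0_2111
    (EE_two (m - 4 - i) 4 (m - 4 - i + 3) 1 (by omega) (by omega) (by omega) (by omega)
      (by omega) (by omega))

theorem EE_221 (i : ℕ) (h : i + 3 ≤ m) : EE (vb m [(i, 2), (i + 1, 2), (i + 2, 1)]) :=
  EE_of_dual 3 i h [(0, 2), (1, 2), (2, 1)] [(0, 3), (1, 2)] (by decide) (by decide) w0_221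
    (EE_two (m - 3 - i) 3 (m - 3 - i + 1) 2 (by omega) (by omega) (by omega) (by omega)
      (by omega) (by omega))

theorem EE_122 (i : ℕ) (h : i + 4 ≤ m) : EE (vb m [(i, 1), (i + 1, 2), (i + 2, 2)]) :=
  EE_of_dual 4 i h [(0, 1), (1, 2), (2, 2)] [(0, 2), (1, 3)] (by decide) (by decide) w0_122
    (EE_two (m - 4 - i) 2 (m - 4 - i + 1) 3 (by omega) (by omega) (by omega) (by omega)
      (by omega) (by omega))

theorem EE_2201 (i : ℕ) (h : i + 4 ≤ m) : EE (vb m [(i, 2), (i + 1, 2), (i + 3, 1)]) :=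
  EE_of_dual 4 i h [(0, 2), (1, 2), (3, 1)] [(0, 3), (2, 2)] (by decide) (by decide) w0_2201
    (EE_two (m - 4 - i) 3 (m - 4 - i + 2) 2 (by omega) (by omega) (by omega) (by omega)
      (by omega) (by omega))

theorem EE_1301 (i : ℕ) (h : i + 4 ≤ m) : EE (vb m [(i, 1), (i + 1, 3), (i + 3, 1)]) :=
  EE_of_dual 4 i h [(0, 1), (1, 3), (3, 1)] [(0, 2), (1, 1), (2, 2)] (by decide) (by decide)
    w0_1301 (EE_212 (m - 4 - i) (by omega))

theorem EE_2021 (i : ℕ) (h : i + 4 ≤ m) : EE (vb m [(i, 2), (i + 2, 2), (i + 3, 1)]) :=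
  EE_of_dual 4 i h [(0, 2), (2, 2), (3, 1)] [(0, 3), (1, 1), (3, 1)] (by decide) (by decide)
    w0_2021 (EE_3101 (m - 4 - i) (by omega))

end H50R
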