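import Pool.Agent.Helper82.CSB.C4t

/-!
# The polynomials of the codes (3,0,1), (2,1,1), (3,0,1,1) (piece C4, part)
-/

namespace H50R

open H45C Equiv MvPolynomial

variable {m : ℕ}

theorem dd1_hz_eq (k : Fin m) (j : ℕ) (hj : j = (k : ℕ) + 1) (a : ℤ) :
    dd1 k (hz m j a) = hz m (j + 1) (a - 1) := by
  subst hj
  exact dd1_hz k a

theorem dd1_hz_ne (k : Fin m) (j : ℕ) (hj : j ≠ (k : ℕ) + 1) (a : ℤ) :
    dd1 k (hz m j a) = 0 :=
  dd1_eq_zero_of_inv k _ (pact_hz k j a hj)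

/-- code (2,1) -/
theorem isSchub_21 (i : ℕ) (h : i + 2 ≤ m) : IsSchub (vb m [(i, 2), (i + 1, 1)])
    (hz m (i + 1) 2 * hz m (i + 2) 1 - hz m (i + 1) 3) := by
  have h1 := isSchub_iji (m := m) i (by omega)
  have h2 : sn m i * sn m (i + 1) * sn m i = vb m [(i, 2), (i + 1, 1)] := by
    have e : sn 2 0 * sn 2 1 * sn 2 0 = vb 2 [(0, 2), (1, 1)] := by decide
    have e2 := congrArg (sh 2 i h) e
    rw [map_mul, map_mul, sh_sn 2 i h 0 (by omega), sh_sn 2 i h 1 (by omega),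
      sh_vb 2 i h _ (by decide)] at e2
    exact e2
  rwa [h2] at h1

/-- code (1,1,1) -/
theorem isSchub_111 (i : ℕ) (h : i + 3 ≤ m) : IsSchub (vb m [(i, 1), (i + 1, 1), (i + 2, 1)])
    (hz m (i + 1) 1 * (hz m (i + 2) 1 * hz m (i + 3) 1 - hz m (i + 2) 2) -
      (hz m (i + 1) 2 * hz m (i + 3) 1 - hz m (i + 1) 3)) := by
  have h1 := isSchub_pb (m := m) [(i, 1), (i + 1, 1), (i + 2, 1)] ⟨by simp, by simp, by simp,
    by simp, by simp, by omega⟩
  have h2 : pb m [(i, 1), (i + 1, 1), (i + 2, 1)] =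
      hz m (i + 1) 1 * (hz m (i + 2) 1 * hz m (i + 3) 1 - hz m (i + 2) 2) -
      (hz m (i + 1) 2 * hz m (i + 3) 1 - hz m (i + 1) 3) := by
    rw [pb_cons, if_pos (by simp), pb_cons, if_pos (by simp), pb_cons, if_pos (by simp),
      pb_single, pb_single, pb_single]
    norm_num [add_assoc]
  rwa [h2] at h1

/-- code (3) -/
theorem isSchub_3 (i : ℕ) (h : i + 3 ≤ m) : IsSchub (vb m [(i, 3)]) (hz m (i + 1) 3) := by
  have h1 := isSchub_pb (m := m) [(i, 3)] ⟨by simp, by simpa using h⟩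
  rw [pb_single] at h1
  exact h1

/-- code (2,1,1) -/
theorem isSchub_211 (i : ℕ) (h : i + 3 ≤ m) : IsSchub (vb m [(i, 2), (i + 1, 1), (i + 2, 1)])
    (hz m (i + 1) 2 * hz m (i + 2) 1 * hz m (i + 3) 1 - hz m (i + 1) 2 * hz m (i + 2) 2 -
      hz m (i + 1) 3 * hz m (i + 3) 1 + hz m (i + 1) 4) := by
  have hinv : inv (vb m [(i, 2), (i + 1, 1), (i + 2, 1)]) = 3 + 1 :=
    (inv_vb_window 3 i h [(0, 2), (1, 1), (2, 1)] (by decide)).trans (by decide)
  have hhom : (hz m (i + 1) 2 * hz m (i + 2) 1 * hz m (i + 3) 1 -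
      hz m (i + 1) 2 * hz m (i + 2) 2 - hz m (i + 1) 3 * hz m (i + 3) 1 +
      hz m (i + 1) 4 : Pol m).IsHomogeneous (3 + 1) := by
    refine (((((hz_homog (i + 1) 2).mul (hz_homog (i + 2) 1)).mul (hz_homog (i + 3) 1)).sub
      ((hz_homog (i + 1) 2).mul (hz_homog (i + 2) 2))).sub
      ((hz_homog (i + 1) 3).mul (hz_homog (i + 3) 1))).add (hz_homog (i + 1) 4)
  -- the letter `i`
  have c0 : ∀ k : Fin m, (k : ℕ) = i →
      IsSchub (vb m [(i, 2), (i + 1, 1), (i + 2, 1)] * sg k)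
        (dd1 k (hz m (i + 1) 2 * hz m (i + 2) 1 * hz m (i + 3) 1 -
          hz m (i + 1) 2 * hz m (i + 2) 2 - hz m (i + 1) 3 * hz m (i + 3) 1 +
          hz m (i + 1) 4)) := by
    intro k hk
    have e1 := fun a => dd1_hz_eq (m := m) k (i + 1) (by omega) a
    have e2 := fun a => dd1_hz_ne (m := m) k (i + 2) (by omega) a
    have e3 := fun a => dd1_hz_ne (m := m) k (i + 3) (by omega) a
    have f2 := fun a => pact_hz (m := m) k (i + 2) a (by omega)
    have hmul : vb m [(i, 2), (i + 1, 1), (i + 2, 1)] * sg k =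
        vb m [(i, 1), (i + 1, 1), (i + 2, 1)] :=
      vb_mul_window 3 i h [(0, 2), (1, 1), (2, 1)] [(0, 1), (1, 1), (2, 1)] (by decide)
        (by decide) 0 (by decide) (by decide) k (by omega)
    have hp : dd1 k (hz m (i + 1) 2 * hz m (i + 2) 1 * hz m (i + 3) 1 -
          hz m (i + 1) 2 * hz m (i + 2) 2 - hz m (i + 1) 3 * hz m (i + 3) 1 +
          hz m (i + 1) 4) = hz m (i + 1) 1 * (hz m (i + 2) 1 * hz m (i + 3) 1 -
            hz m (i + 2) 2) - (hz m (i + 1) 2 * hz m (i + 3) 1 - hz m (i + 1) 3) := by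
      rw [dd1_add, dd1_sub, dd1_sub, dd1_mul, dd1_mul, dd1_mul, dd1_mul, e1, e1, e1, e2, e2, e3]
      have g1 := hz_succ (m := m) (i + 1) 1
      have g2 := hz_succ (m := m) (i + 1) 2
      have g3 := hz_succ (m := m) (i + 1) 3
      norm_num [add_assoc, hz_zero_right] at g1 g2 g3 ⊢
      linear_combination (hz m (i + 2) 1 * hz m (i + 3) 1 - hz m (i + 2) 2) * g1 -
        hz m (i + 3) 1 * g2 + g3
    rw [hmul, hp]
    exact isSchub_111 i h
  -- the letter `i + 2`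
  have c2 : ∀ k : Fin m, (k : ℕ) = i + 2 →
      IsSchub (vb m [(i, 2), (i + 1, 1), (i + 2, 1)] * sg k)
        (dd1 k (hz m (i + 1) 2 * hz m (i + 2) 1 * hz m (i + 3) 1 -
          hz m (i + 1) 2 * hz m (i + 2) 2 - hz m (i + 1) 3 * hz m (i + 3) 1 +
          hz m (i + 1) 4)) := by
    intro k hk
    have e1 := fun a => dd1_hz_ne (m := m) k (i + 1) (by omega) a
    have e2 := fun a => dd1_hz_ne (m := m) k (i + 2) (by omega) a
    have e3 := fun a => dd1_hz_eq (m := m) k (i + 3) (by omega) a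
    have f1 := fun a => pact_hz (m := m) k (i + 1) a (by omega)
    have f2 := fun a => pact_hz (m := m) k (i + 2) a (by omega)
    have hmul : vb m [(i, 2), (i + 1, 1), (i + 2, 1)] * sg k = vb m [(i, 2), (i + 1, 1)] :=
      vb_mul_window 3 i h [(0, 2), (1, 1), (2, 1)] [(0, 2), (1, 1)] (by decide)
        (by decide) 2 (by decide) (by decide) k (by omega)
    have hp : dd1 k (hz m (i + 1) 2 * hz m (i + 2) 1 * hz m (i + 3) 1 -
          hz m (i + 1) 2 * hz m (i + 2) 2 - hz m (i + 1) 3 * hz m (i + 3) 1 +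
          hz m (i + 1) 4) = hz m (i + 1) 2 * hz m (i + 2) 1 - hz m (i + 1) 3 := by
      rw [dd1_add, dd1_sub, dd1_sub, dd1_mul, dd1_mul, dd1_mul, dd1_mul, e1, e1, e1, e2, e2, e3,
        map_mul, f1, f1, f2]
      norm_num [hz_zero_right]
    rw [hmul, hp]
    exact isSchub_21 i (by omega)
  refine isSchub_weak _ _ 3 hinv hhom (fun k => ?_) ⟨⟨i, by omega⟩, c0 _ rfl⟩
  by_cases h0 : (k : ℕ) = i
  · exact .inr (c0 k h0)
  by_cases h2 : (k : ℕ) = i + 2
  · exact .inr (c2 k h2)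
  left
  have e1 := fun a => dd1_hz_ne (m := m) k (i + 1) (by omega) a
  have e3 := fun a => dd1_hz_ne (m := m) k (i + 3) (by omega) a
  have f1 := fun a => pact_hz (m := m) k (i + 1) a (by omega)
  by_cases h1 : (k : ℕ) = i + 1
  · have e2 := fun a => dd1_hz_eq (m := m) k (i + 2) (by omega) a
    rw [dd1_add, dd1_sub, dd1_sub, dd1_mul, dd1_mul, dd1_mul, dd1_mul, e1, e1, e1, e2, e2, e3, f1]
    norm_num [hz_zero_right, add_assoc]
  · have e2 := fun a => dd1_hz_ne (m := m) k (i + 2) (by omega) a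
    rw [dd1_add, dd1_sub, dd1_sub, dd1_mul, dd1_mul, dd1_mul, dd1_mul, e1, e1, e1, e2, e2, e3]
    simp

/-- code (3,0,1) -/
theorem isSchub_301 (i : ℕ) (h : i + 3 ≤ m) : IsSchub (vb m [(i, 3), (i + 2, 1)])
    (hz m (i + 1) 3 * hz m (i + 3) 1 - hz m (i + 1) 4) := by
  have hinv : inv (vb m [(i, 3), (i + 2, 1)]) = 3 + 1 :=
    (inv_vb_window 3 i h [(0, 3), (2, 1)] (by decide)).trans (by decide)
  have hhom : (hz m (i + 1) 3 * hz m (i + 3) 1 - hz m (i + 1) 4 : Pol m).IsHomogeneous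
      (3 + 1) := ((hz_homog (i + 1) 3).mul (hz_homog (i + 3) 1)).sub (hz_homog (i + 1) 4)
  have c0 : ∀ k : Fin m, (k : ℕ) = i → IsSchub (vb m [(i, 3), (i + 2, 1)] * sg k)
      (dd1 k (hz m (i + 1) 3 * hz m (i + 3) 1 - hz m (i + 1) 4)) := by
    intro k hk
    have e1 := fun a => dd1_hz_eq (m := m) k (i + 1) (by omega) a
    have e3 := fun a => dd1_hz_ne (m := m) k (i + 3) (by omega) a
    have hmul : vb m [(i, 3), (i + 2, 1)] * sg k = vb m [(i + 1, 2), (i + 2, 1)] :=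
      vb_mul_window 3 i h [(0, 3), (2, 1)] [(1, 2), (2, 1)] (by decide)
        (by decide) 0 (by decide) (by decide) k (by omega)
    have hp : dd1 k (hz m (i + 1) 3 * hz m (i + 3) 1 - hz m (i + 1) 4) =
        hz m (i + 1 + 1) 2 * hz m (i + 1 + 2) 1 - hz m (i + 1 + 1) 3 := by
      rw [dd1_sub, dd1_mul, e1, e1, e3]
      norm_num [add_assoc]
    rw [hmul, hp]
    exact isSchub_21 (i + 1) (by omega)
  have c2 : ∀ k : Fin m, (k : ℕ) = i + 2 → IsSchub (vb m [(i, 3), (i + 2, 1)] * sg k)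
      (dd1 k (hz m (i + 1) 3 * hz m (i + 3) 1 - hz m (i + 1) 4)) := by
    intro k hk
    have e1 := fun a => dd1_hz_ne (m := m) k (i + 1) (by omega) a
    have e3 := fun a => dd1_hz_eq (m := m) k (i + 3) (by omega) a
    have f1 := fun a => pact_hz (m := m) k (i + 1) a (by omega)
    have hmul : vb m [(i, 3), (i + 2, 1)] * sg k = vb m [(i, 3)] :=
      vb_mul_window 3 i h [(0, 3), (2, 1)] [(0, 3)] (by decide)
        (by decide) 2 (by decide) (by decide) k (by omega)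
    have hp : dd1 k (hz m (i + 1) 3 * hz m (i + 3) 1 - hz m (i + 1) 4) = hz m (i + 1) 3 := by
      rw [dd1_sub, dd1_mul, e1, e1, e3, f1]
      norm_num [hz_zero_right]
    rw [hmul, hp]
    exact isSchub_3 i h
  refine isSchub_weak _ _ 3 hinv hhom (fun k => ?_) ⟨⟨i, by omega⟩, c0 _ rfl⟩
  by_cases h0 : (k : ℕ) = i
  · exact .inr (c0 k h0)
  by_cases h2 : (k : ℕ) = i + 2
  · exact .inr (c2 k h2)
  left
  rw [dd1_sub, dd1_mul, dd1_hz_ne k (i + 1) (by omega), dd1_hz_ne k (i + 1) (by omega),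
    dd1_hz_ne k (i + 3) (by omega)]
  simp

/-- code (3,0,1,1) -/
theorem isSchub_3011 (i : ℕ) (h : i + 4 ≤ m) :
    IsSchub (vb m [(i, 3), (i + 2, 1), (i + 3, 1)])
      (hz m (i + 1) 3 * hz m (i + 3) 1 * hz m (i + 4) 1 - hz m (i + 1) 3 * hz m (i + 3) 2 -
        hz m (i + 1) 4 * hz m (i + 4) 1 + hz m (i + 1) 5) := by
  have hinv : inv (vb m [(i, 3), (i + 2, 1), (i + 3, 1)]) = 4 + 1 :=
    (inv_vb_window 4 i h [(0, 3), (2, 1), (3, 1)] (by decide)).trans (by decide)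
  have hhom : (hz m (i + 1) 3 * hz m (i + 3) 1 * hz m (i + 4) 1 -
      hz m (i + 1) 3 * hz m (i + 3) 2 - hz m (i + 1) 4 * hz m (i + 4) 1 +
      hz m (i + 1) 5 : Pol m).IsHomogeneous (4 + 1) := by
    refine (((((hz_homog (i + 1) 3).mul (hz_homog (i + 3) 1)).mul (hz_homog (i + 4) 1)).sub
      ((hz_homog (i + 1) 3).mul (hz_homog (i + 3) 2))).sub
      ((hz_homog (i + 1) 4).mul (hz_homog (i + 4) 1))).add (hz_homog (i + 1) 5)
  have c0 : ∀ k : Fin m, (k : ℕ) = i →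
      IsSchub (vb m [(i, 3), (i + 2, 1), (i + 3, 1)] * sg k)
        (dd1 k (hz m (i + 1) 3 * hz m (i + 3) 1 * hz m (i + 4) 1 -
          hz m (i + 1) 3 * hz m (i + 3) 2 - hz m (i + 1) 4 * hz m (i + 4) 1 +
          hz m (i + 1) 5)) := by
    intro k hk
    have e1 := fun a => dd1_hz_eq (m := m) k (i + 1) (by omega) a
    have e3 := fun a => dd1_hz_ne (m := m) k (i + 3) (by omega) a
    have e4 := fun a => dd1_hz_ne (m := m) k (i + 4) (by omega) a
    have hmul : vb m [(i, 3), (i + 2, 1), (i + 3, 1)] * sg k =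
        vb m [(i + 1, 2), (i + 2, 1), (i + 3, 1)] :=
      vb_mul_window 4 i h [(0, 3), (2, 1), (3, 1)] [(1, 2), (2, 1), (3, 1)] (by decide)
        (by decide) 0 (by decide) (by decide) k (by omega)
    have hp : dd1 k (hz m (i + 1) 3 * hz m (i + 3) 1 * hz m (i + 4) 1 -
          hz m (i + 1) 3 * hz m (i + 3) 2 - hz m (i + 1) 4 * hz m (i + 4) 1 +
          hz m (i + 1) 5) = hz m (i + 1 + 1) 2 * hz m (i + 1 + 2) 1 * hz m (i + 1 + 3) 1 -
          hz m (i + 1 + 1) 2 * hz m (i + 1 + 2) 2 - hz m (i + 1 + 1) 3 * hz m (i + 1 + 3) 1 +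
          hz m (i + 1 + 1) 4 := by
      rw [dd1_add, dd1_sub, dd1_sub, dd1_mul, dd1_mul, dd1_mul, dd1_mul, e1, e1, e1, e3, e3, e4]
      norm_num [add_assoc]
    rw [hmul, hp]
    exact isSchub_211 (i + 1) (by omega)
  have c3 : ∀ k : Fin m, (k : ℕ) = i + 3 →
      IsSchub (vb m [(i, 3), (i + 2, 1), (i + 3, 1)] * sg k)
        (dd1 k (hz m (i + 1) 3 * hz m (i + 3) 1 * hz m (i + 4) 1 -
          hz m (i + 1) 3 * hz m (i + 3) 2 - hz m (i + 1) 4 * hz m (i + 4) 1 +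
          hz m (i + 1) 5)) := by
    intro k hk
    have e1 := fun a => dd1_hz_ne (m := m) k (i + 1) (by omega) a
    have e3 := fun a => dd1_hz_ne (m := m) k (i + 3) (by omega) a
    have e4 := fun a => dd1_hz_eq (m := m) k (i + 4) (by omega) a
    have f1 := fun a => pact_hz (m := m) k (i + 1) a (by omega)
    have f3 := fun a => pact_hz (m := m) k (i + 3) a (by omega)
    have hmul : vb m [(i, 3), (i + 2, 1), (i + 3, 1)] * sg k = vb m [(i, 3), (i + 2, 1)] :=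
      vb_mul_window 4 i h [(0, 3), (2, 1), (3, 1)] [(0, 3), (2, 1)] (by decide)
        (by decide) 3 (by decide) (by decide) k (by omega)
    have hp : dd1 k (hz m (i + 1) 3 * hz m (i + 3) 1 * hz m (i + 4) 1 -
          hz m (i + 1) 3 * hz m (i + 3) 2 - hz m (i + 1) 4 * hz m (i + 4) 1 +
          hz m (i + 1) 5) = hz m (i + 1) 3 * hz m (i + 3) 1 - hz m (i + 1) 4 := by
      rw [dd1_add, dd1_sub, dd1_sub, dd1_mul, dd1_mul, dd1_mul, dd1_mul, e1, e1, e1, e3, e3, e4,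
        map_mul, f1, f1, f3]
      norm_num [hz_zero_right]
    rw [hmul, hp]
    exact isSchub_301 i (by omega)
  refine isSchub_weak _ _ 4 hinv hhom (fun k => ?_) ⟨⟨i, by omega⟩, c0 _ rfl⟩
  by_cases h0 : (k : ℕ) = i
  · exact .inr (c0 k h0)
  by_cases h3 : (k : ℕ) = i + 3
  · exact .inr (c3 k h3)
  left
  have e1 := fun a => dd1_hz_ne (m := m) k (i + 1) (by omega) a
  have e4 := fun a => dd1_hz_ne (m := m) k (i + 4) (by omega) a
  have f1 := fun a => pact_hz (m := m) k (i + 1) a (by omega)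
  by_cases h1 : (k : ℕ) = i + 2
  · have e3 := fun a => dd1_hz_eq (m := m) k (i + 3) (by omega) a
    rw [dd1_add, dd1_sub, dd1_sub, dd1_mul, dd1_mul, dd1_mul, dd1_mul, e1, e1, e1, e3, e3, e4, f1]
    norm_num [hz_zero_right, add_assoc]
  · have e3 := fun a => dd1_hz_ne (m := m) k (i + 3) (by omega) a
    rw [dd1_add, dd1_sub, dd1_sub, dd1_mul, dd1_mul, dd1_mul, dd1_mul, e1, e1, e1, e3, e3, e4]
    simp

/-- the polynomial of the code (3,0,1,1) acts nonnegatively -/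
theorem PP_3011 (i : ℕ) : PP (hz m (i + 1) 3 * hz m (i + 3) 1 * hz m (i + 4) 1 -
    hz m (i + 1) 3 * hz m (i + 3) 2 - hz m (i + 1) 4 * hz m (i + 4) 1 + hz m (i + 1) 5) := by
  intro x
  apply NN_of_Om
  have h : Om m (act m (hz m (i + 1) 3 * hz m (i + 3) 1 * hz m (i + 4) 1 -
      hz m (i + 1) 3 * hz m (i + 3) 2 - hz m (i + 1) 4 * hz m (i + 4) 1 + hz m (i + 1) 5)
        (bas x)) =
      rib [((Sj m (i + 1), (3 : ℤ)) : Bl (Fin (m + 1))), (Sj m (i + 3), 1), (Sj m (i + 4), 1)]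
        (wd (om x)) := by
    rw [map_add, map_sub, map_sub, LinearMap.add_apply, LinearMap.sub_apply,
      LinearMap.sub_apply, map_add, map_sub, map_sub, act_mul_apply, act_mul_apply,
      act_mul_apply, act_mul_apply, rib_cons, rib_cons, rib_cons, rib_single, rib_single,
      rib_single]
    simp only [Om_act_hz, Om_bas, LinearMap.sub_apply, Module.End.mul_apply, map_sub]
    norm_num
    abel
  rw [h]
  refine rib_pos (X := Finset.univ)
    (L := [((Sj m (i + 1), (3 : ℤ)) : Bl (Fin (m + 1))), (Sj m (i + 3), 1), (Sj m (i + 4), 1)])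
    ⟨?_, ?_, ?_, ⟨?_, ?_, ?_, trivial⟩⟩ ?_ (wd_mem _ (om_nodup x) (om_toFinset x)) (WN.wd _)
  · exact Sj_mono (by omega)
  · show (1 : ℤ) ≤ 3
    norm_num
  · have h := card_Sj_sdiff (i + 1) (i + 4) (Finset.univ : Finset (Fin (m + 1)))
    show (((Sj m (i + 4) \ Sj m (i + 1)) ∩ Finset.univ).card : ℤ) ≤ 3 + ((1 : ℕ) : ℤ)
    push_cast
    omega
  · exact Sj_mono (by omega)
  · show (1 : ℤ) ≤ 1
    norm_num
  · have h := card_Sj_sdiff (i + 3) (i + 4) (Finset.univ : Finset (Fin (m + 1)))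
    show (((Sj m (i + 4) \ Sj m (i + 3)) ∩ Finset.univ).card : ℤ) ≤ 1 + ((0 : ℕ) : ℤ)
    push_cast
    omega
  · show (1 : ℤ) ≤ 1
    exact le_rfl

theorem EE_3011 (i : ℕ) (h : i + 4 ≤ m) : EE (vb m [(i, 3), (i + 2, 1), (i + 3, 1)]) :=
  ⟨_, isSchub_3011 i h, PP_3011 i⟩

end H50R
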