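import Pool.Agent.Helper82.CSB.C4c

/-!
# The polynomials of the codes (3,1), (3,1,0,1), (2,1,2), (piece C4, part)
-/

namespace H50R

open H45C Equiv MvPolynomial

variable {m : ℕ}

/-- code (1,2) -/
theorem isSchub_12 (i : ℕ) (h : i + 3 ≤ m) : IsSchub (vb m [(i, 1), (i + 1, 2)])
    (hz m (i + 1) 1 * hz m (i + 2) 2 - hz m (i + 1) 3) := by
  have h1 := isSchub_pb (m := m) [(i, 1), (i + 1, 2)] ⟨by simp, by simp, by simp,
    by simp; omega⟩
  have h2 : pb m [(i, 1), (i + 1, 2)] = hz m (i + 1) 1 * hz m (i + 2) 2 - hz m (i + 1) 3 := by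
    rw [pb_cons, if_pos (by simp), pb_single, pb_single]
    norm_num [add_assoc]
  rwa [h2] at h1

/-- code (1,2,0,1) -/
theorem isSchub_1201 (i : ℕ) (h : i + 4 ≤ m) : IsSchub (vb m [(i, 1), (i + 1, 2), (i + 3, 1)])
    (hz m (i + 1) 1 * (hz m (i + 2) 2 * hz m (i + 4) 1 - hz m (i + 2) 3) -
      (hz m (i + 1) 3 * hz m (i + 4) 1 - hz m (i + 1) 4)) := by
  have h1 := isSchub_pb (m := m) [(i, 1), (i + 1, 2), (i + 3, 1)] ⟨by simp, by simp, by simp,
    by simp, by simp, by simp; omega⟩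
  have h2 : pb m [(i, 1), (i + 1, 2), (i + 3, 1)] =
      hz m (i + 1) 1 * (hz m (i + 2) 2 * hz m (i + 4) 1 - hz m (i + 2) 3) -
      (hz m (i + 1) 3 * hz m (i + 4) 1 - hz m (i + 1) 4) := by
    rw [pb_cons, if_pos (by simp), pb_cons, if_pos (by simp), pb_cons, if_pos (by simp),
      pb_single, pb_single, pb_single]
    norm_num [add_assoc]
  rwa [h2] at h1

/-- code (3,0,0,1) -/
theorem isSchub_3001 (i : ℕ) (h : i + 4 ≤ m) : IsSchub (vb m [(i, 3), (i + 3, 1)])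
    (hz m (i + 1) 3 * hz m (i + 4) 1 - hz m (i + 1) 4) := by
  have h1 := isSchub_pb (m := m) [(i, 3), (i + 3, 1)] ⟨by simp, by simp, by simp,
    by simp; omega⟩
  have h2 : pb m [(i, 3), (i + 3, 1)] = hz m (i + 1) 3 * hz m (i + 4) 1 - hz m (i + 1) 4 := by
    rw [pb_cons, if_pos (by simp), pb_single, pb_single]
    norm_num [add_assoc]
  rwa [h2] at h1

/-- code (1,1,2) -/
theorem isSchub_112 (i : ℕ) (h : i + 4 ≤ m) : IsSchub (vb m [(i, 1), (i + 1, 1), (i + 2, 2)])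
    (hz m (i + 1) 1 * (hz m (i + 2) 1 * hz m (i + 3) 2 - hz m (i + 2) 3) -
      (hz m (i + 1) 2 * hz m (i + 3) 2 - hz m (i + 1) 4)) := by
  have h1 := isSchub_pb (m := m) [(i, 1), (i + 1, 1), (i + 2, 2)] ⟨by simp, by simp, by simp,
    by simp, by simp, by simp; omega⟩
  have h2 : pb m [(i, 1), (i + 1, 1), (i + 2, 2)] =
      hz m (i + 1) 1 * (hz m (i + 2) 1 * hz m (i + 3) 2 - hz m (i + 2) 3) -
      (hz m (i + 1) 2 * hz m (i + 3) 2 - hz m (i + 1) 4) := by
    rw [pb_cons, if_pos (by simp), pb_cons, if_pos (by simp), pb_cons, if_pos (by simp),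
      pb_single, pb_single, pb_single]
    norm_num [add_assoc]
  rwa [h2] at h1

/-- code (3,1) -/
theorem isSchub_31 (i : ℕ) (h : i + 3 ≤ m) : IsSchub (vb m [(i, 3), (i + 1, 1)])
    (hz m (i + 1) 3 * hz m (i + 2) 1 - hz m (i + 1) 4) := by
  have hinv : inv (vb m [(i, 3), (i + 1, 1)]) = 3 + 1 :=
    (inv_vb_window 3 i h [(0, 3), (1, 1)] (by decide)).trans (by decide)
  have hhom : (hz m (i + 1) 3 * hz m (i + 2) 1 - hz m (i + 1) 4 : Pol m).IsHomogeneous
      (3 + 1) := ((hz_homog (i + 1) 3).mul (hz_homog (i + 2) 1)).sub (hz_homog (i + 1) 4)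
  have c0 : ∀ k : Fin m, (k : ℕ) = i → IsSchub (vb m [(i, 3), (i + 1, 1)] * sg k)
      (dd1 k (hz m (i + 1) 3 * hz m (i + 2) 1 - hz m (i + 1) 4)) := by
    intro k hk
    have e1 := fun a => dd1_hz_eq (m := m) k (i + 1) (by omega) a
    have e2 := fun a => dd1_hz_ne (m := m) k (i + 2) (by omega) a
    have hmul : vb m [(i, 3), (i + 1, 1)] * sg k = vb m [(i, 1), (i + 1, 2)] :=
      vb_mul_window 3 i h [(0, 3), (1, 1)] [(0, 1), (1, 2)] (by decide)
        (by decide) 0 (by decide) (by decide) k (by omega)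
    have hp : dd1 k (hz m (i + 1) 3 * hz m (i + 2) 1 - hz m (i + 1) 4) =
        hz m (i + 1) 1 * hz m (i + 2) 2 - hz m (i + 1) 3 := by
      rw [dd1_sub, dd1_mul, e1, e1, e2]
      have g1 := hz_succ (m := m) (i + 1) 1
      have g3 := hz_succ (m := m) (i + 1) 3
      norm_num [add_assoc, hz_zero_right] at g1 g3 ⊢
      linear_combination hz m (i + 2) 2 * g1 - g3
    rw [hmul, hp]
    exact isSchub_12 i h
  have c1 : ∀ k : Fin m, (k : ℕ) = i + 1 → IsSchub (vb m [(i, 3), (i + 1, 1)] * sg k)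
      (dd1 k (hz m (i + 1) 3 * hz m (i + 2) 1 - hz m (i + 1) 4)) := by
    intro k hk
    have e1 := fun a => dd1_hz_ne (m := m) k (i + 1) (by omega) a
    have e2 := fun a => dd1_hz_eq (m := m) k (i + 2) (by omega) a
    have f1 := fun a => pact_hz (m := m) k (i + 1) a (by omega)
    have hmul : vb m [(i, 3), (i + 1, 1)] * sg k = vb m [(i, 3)] :=
      vb_mul_window 3 i h [(0, 3), (1, 1)] [(0, 3)] (by decide)
        (by decide) 1 (by decide) (by decide) k (by omega)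
    have hp : dd1 k (hz m (i + 1) 3 * hz m (i + 2) 1 - hz m (i + 1) 4) = hz m (i + 1) 3 := by
      rw [dd1_sub, dd1_mul, e1, e1, e2, f1]
      norm_num [hz_zero_right]
    rw [hmul, hp]
    exact isSchub_3 i h
  refine isSchub_weak _ _ 3 hinv hhom (fun k => ?_) ⟨⟨i, by omega⟩, c0 _ rfl⟩
  by_cases h0 : (k : ℕ) = i
  · exact .inr (c0 k h0)
  by_cases h1 : (k : ℕ) = i + 1
  · exact .inr (c1 k h1)
  left
  rw [dd1_sub, dd1_mul, dd1_hz_ne k (i + 1) (by omega), dd1_hz_ne k (i + 1) (by omega),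
    dd1_hz_ne k (i + 2) (by omega)]
  simp

/-- code (3,1,0,1) -/
theorem isSchub_3101 (i : ℕ) (h : i + 4 ≤ m) :
    IsSchub (vb m [(i, 3), (i + 1, 1), (i + 3, 1)])
      (hz m (i + 1) 3 * hz m (i + 2) 1 * hz m (i + 4) 1 - hz m (i + 1) 4 * hz m (i + 4) 1 -
        hz m (i + 1) 4 * hz m (i + 2) 1 + hz m (i + 1) 5) := by
  have hinv : inv (vb m [(i, 3), (i + 1, 1), (i + 3, 1)]) = 4 + 1 :=
    (inv_vb_window 4 i h [(0, 3), (1, 1), (3, 1)] (by decide)).trans (by decide)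
  have hhom : (hz m (i + 1) 3 * hz m (i + 2) 1 * hz m (i + 4) 1 -
      hz m (i + 1) 4 * hz m (i + 4) 1 - hz m (i + 1) 4 * hz m (i + 2) 1 +
      hz m (i + 1) 5 : Pol m).IsHomogeneous (4 + 1) := by
    refine (((((hz_homog (i + 1) 3).mul (hz_homog (i + 2) 1)).mul (hz_homog (i + 4) 1)).sub
      ((hz_homog (i + 1) 4).mul (hz_homog (i + 4) 1))).sub
      ((hz_homog (i + 1) 4).mul (hz_homog (i + 2) 1))).add (hz_homog (i + 1) 5)
  have c0 : ∀ k : Fin m, (k : ℕ) = i →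
      IsSchub (vb m [(i, 3), (i + 1, 1), (i + 3, 1)] * sg k)
        (dd1 k (hz m (i + 1) 3 * hz m (i + 2) 1 * hz m (i + 4) 1 -
          hz m (i + 1) 4 * hz m (i + 4) 1 - hz m (i + 1) 4 * hz m (i + 2) 1 +
          hz m (i + 1) 5)) := by
    intro k hk
    have e1 := fun a => dd1_hz_eq (m := m) k (i + 1) (by omega) a
    have e2 := fun a => dd1_hz_ne (m := m) k (i + 2) (by omega) a
    have e4 := fun a => dd1_hz_ne (m := m) k (i + 4) (by omega) a
    have hmul : vb m [(i, 3), (i + 1, 1), (i + 3, 1)] * sg k =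
        vb m [(i, 1), (i + 1, 2), (i + 3, 1)] :=
      vb_mul_window 4 i h [(0, 3), (1, 1), (3, 1)] [(0, 1), (1, 2), (3, 1)] (by decide)
        (by decide) 0 (by decide) (by decide) k (by omega)
    have hp : dd1 k (hz m (i + 1) 3 * hz m (i + 2) 1 * hz m (i + 4) 1 -
          hz m (i + 1) 4 * hz m (i + 4) 1 - hz m (i + 1) 4 * hz m (i + 2) 1 +
          hz m (i + 1) 5) =
        hz m (i + 1) 1 * (hz m (i + 2) 2 * hz m (i + 4) 1 - hz m (i + 2) 3) -
          (hz m (i + 1) 3 * hz m (i + 4) 1 - hz m (i + 1) 4) := by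
      rw [dd1_add, dd1_sub, dd1_sub, dd1_mul, dd1_mul, dd1_mul, dd1_mul, e1, e1, e1, e2, e4]
      have g1 := hz_succ (m := m) (i + 1) 1
      have g3 := hz_succ (m := m) (i + 1) 3
      have g4 := hz_succ (m := m) (i + 1) 4
      norm_num [add_assoc, hz_zero_right] at g1 g3 g4 ⊢
      linear_combination (hz m (i + 2) 2 * hz m (i + 4) 1 - hz m (i + 2) 3) * g1 -
        hz m (i + 4) 1 * g3 + g4
    rw [hmul, hp]
    exact isSchub_1201 i h
  have c1 : ∀ k : Fin m, (k : ℕ) = i + 1 →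
      IsSchub (vb m [(i, 3), (i + 1, 1), (i + 3, 1)] * sg k)
        (dd1 k (hz m (i + 1) 3 * hz m (i + 2) 1 * hz m (i + 4) 1 -
          hz m (i + 1) 4 * hz m (i + 4) 1 - hz m (i + 1) 4 * hz m (i + 2) 1 +
          hz m (i + 1) 5)) := by
    intro k hk
    have e1 := fun a => dd1_hz_ne (m := m) k (i + 1) (by omega) a
    have e2 := fun a => dd1_hz_eq (m := m) k (i + 2) (by omega) a
    have e4 := fun a => dd1_hz_ne (m := m) k (i + 4) (by omega) a
    have f1 := fun a => pact_hz (m := m) k (i + 1) a (by omega)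
    have hmul : vb m [(i, 3), (i + 1, 1), (i + 3, 1)] * sg k = vb m [(i, 3), (i + 3, 1)] :=
      vb_mul_window 4 i h [(0, 3), (1, 1), (3, 1)] [(0, 3), (3, 1)] (by decide)
        (by decide) 1 (by decide) (by decide) k (by omega)
    have hp : dd1 k (hz m (i + 1) 3 * hz m (i + 2) 1 * hz m (i + 4) 1 -
          hz m (i + 1) 4 * hz m (i + 4) 1 - hz m (i + 1) 4 * hz m (i + 2) 1 +
          hz m (i + 1) 5) = hz m (i + 1) 3 * hz m (i + 4) 1 - hz m (i + 1) 4 := by
      rw [dd1_add, dd1_sub, dd1_sub, dd1_mul, dd1_mul, dd1_mul, dd1_mul, e1, e1, e1, e2, e4,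
        f1, f1]
      norm_num [hz_zero_right]
    rw [hmul, hp]
    exact isSchub_3001 i h
  have c3 : ∀ k : Fin m, (k : ℕ) = i + 3 →
      IsSchub (vb m [(i, 3), (i + 1, 1), (i + 3, 1)] * sg k)
        (dd1 k (hz m (i + 1) 3 * hz m (i + 2) 1 * hz m (i + 4) 1 -
          hz m (i + 1) 4 * hz m (i + 4) 1 - hz m (i + 1) 4 * hz m (i + 2) 1 +
          hz m (i + 1) 5)) := by
    intro k hk
    have e1 := fun a => dd1_hz_ne (m := m) k (i + 1) (by omega) a
    have e2 := fun a => dd1_hz_ne (m := m) k (i + 2) (by omega) a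
    have e4 := fun a => dd1_hz_eq (m := m) k (i + 4) (by omega) a
    have f1 := fun a => pact_hz (m := m) k (i + 1) a (by omega)
    have f2 := fun a => pact_hz (m := m) k (i + 2) a (by omega)
    have hmul : vb m [(i, 3), (i + 1, 1), (i + 3, 1)] * sg k = vb m [(i, 3), (i + 1, 1)] :=
      vb_mul_window 4 i h [(0, 3), (1, 1), (3, 1)] [(0, 3), (1, 1)] (by decide)
        (by decide) 3 (by decide) (by decide) k (by omega)
    have hp : dd1 k (hz m (i + 1) 3 * hz m (i + 2) 1 * hz m (i + 4) 1 -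
          hz m (i + 1) 4 * hz m (i + 4) 1 - hz m (i + 1) 4 * hz m (i + 2) 1 +
          hz m (i + 1) 5) = hz m (i + 1) 3 * hz m (i + 2) 1 - hz m (i + 1) 4 := by
      rw [dd1_add, dd1_sub, dd1_sub, dd1_mul, dd1_mul, dd1_mul, dd1_mul, e1, e1, e1, e2, e4,
        map_mul, f1, f1, f2]
      norm_num [hz_zero_right]
    rw [hmul, hp]
    exact isSchub_31 i (by omega)
  refine isSchub_weak _ _ 4 hinv hhom (fun k => ?_) ⟨⟨i, by omega⟩, c0 _ rfl⟩
  by_cases h0 : (k : ℕ) = i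
  · exact .inr (c0 k h0)
  by_cases h1 : (k : ℕ) = i + 1
  · exact .inr (c1 k h1)
  by_cases h3 : (k : ℕ) = i + 3
  · exact .inr (c3 k h3)
  left
  have e1 := fun a => dd1_hz_ne (m := m) k (i + 1) (by omega) a
  have e2 := fun a => dd1_hz_ne (m := m) k (i + 2) (by omega) a
  have e4 := fun a => dd1_hz_ne (m := m) k (i + 4) (by omega) a
  rw [dd1_add, dd1_sub, dd1_sub, dd1_mul, dd1_mul, dd1_mul, dd1_mul, e1, e1, e1, e2, e4]
  simp

/-- code (1,1,0,1) -/
theorem isSchub_1101 (i : ℕ) (h : i + 4 ≤ m) : IsSchub (vb m [(i, 1), (i + 1, 1), (i + 3, 1)])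
    (hz m (i + 1) 1 * (hz m (i + 2) 1 * hz m (i + 4) 1) - hz m (i + 1) 2 * hz m (i + 4) 1) := by
  have h1 := isSchub_pb (m := m) [(i, 1), (i + 1, 1), (i + 3, 1)] ⟨by simp, by simp, by simp,
    by simp, by simp, by simp; omega⟩
  have h2 : pb m [(i, 1), (i + 1, 1), (i + 3, 1)] =
      hz m (i + 1) 1 * (hz m (i + 2) 1 * hz m (i + 4) 1) - hz m (i + 1) 2 * hz m (i + 4) 1 := by
    rw [pb_cons, if_pos (by simp), pb_cons, if_neg (by simp), pb_cons, if_neg (by simp),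
      pb_single]
    norm_num [add_assoc]
  rwa [h2] at h1

/-- code (2,0,0,1) -/
theorem isSchub_2001 (i : ℕ) (h : i + 4 ≤ m) : IsSchub (vb m [(i, 2), (i + 3, 1)])
    (hz m (i + 1) 2 * hz m (i + 4) 1) := by
  have h1 := isSchub_pb (m := m) [(i, 2), (i + 3, 1)] ⟨by simp, by simp, by simp,
    by simp; omega⟩
  have h2 : pb m [(i, 2), (i + 3, 1)] = hz m (i + 1) 2 * hz m (i + 4) 1 := by
    rw [pb_cons, if_neg (by simp), pb_single]
    norm_num [add_assoc]
  rwa [h2] at h1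

/-- code (2,1,0,1) -/
theorem isSchub_2101 (i : ℕ) (h : i + 4 ≤ m) : IsSchub (vb m [(i, 2), (i + 1, 1), (i + 3, 1)])
    (hz m (i + 1) 2 * hz m (i + 2) 1 * hz m (i + 4) 1 - hz m (i + 1) 3 * hz m (i + 4) 1) := by
  have hinv : inv (vb m [(i, 2), (i + 1, 1), (i + 3, 1)]) = 3 + 1 :=
    (inv_vb_window 4 i h [(0, 2), (1, 1), (3, 1)] (by decide)).trans (by decide)
  have hhom : (hz m (i + 1) 2 * hz m (i + 2) 1 * hz m (i + 4) 1 -
      hz m (i + 1) 3 * hz m (i + 4) 1 : Pol m).IsHomogeneous (3 + 1) :=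
    (((hz_homog (i + 1) 2).mul (hz_homog (i + 2) 1)).mul (hz_homog (i + 4) 1)).sub
      ((hz_homog (i + 1) 3).mul (hz_homog (i + 4) 1))
  have c0 : ∀ k : Fin m, (k : ℕ) = i →
      IsSchub (vb m [(i, 2), (i + 1, 1), (i + 3, 1)] * sg k)
        (dd1 k (hz m (i + 1) 2 * hz m (i + 2) 1 * hz m (i + 4) 1 -
          hz m (i + 1) 3 * hz m (i + 4) 1)) := by
    intro k hk
    have e1 := fun a => dd1_hz_eq (m := m) k (i + 1) (by omega) a
    have e2 := fun a => dd1_hz_ne (m := m) k (i + 2) (by omega) a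
    have e4 := fun a => dd1_hz_ne (m := m) k (i + 4) (by omega) a
    have hmul : vb m [(i, 2), (i + 1, 1), (i + 3, 1)] * sg k =
        vb m [(i, 1), (i + 1, 1), (i + 3, 1)] :=
      vb_mul_window 4 i h [(0, 2), (1, 1), (3, 1)] [(0, 1), (1, 1), (3, 1)] (by decide)
        (by decide) 0 (by decide) (by decide) k (by omega)
    have hp : dd1 k (hz m (i + 1) 2 * hz m (i + 2) 1 * hz m (i + 4) 1 -
          hz m (i + 1) 3 * hz m (i + 4) 1) =
        hz m (i + 1) 1 * (hz m (i + 2) 1 * hz m (i + 4) 1) -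
          hz m (i + 1) 2 * hz m (i + 4) 1 := by
      rw [dd1_sub, dd1_mul, dd1_mul, dd1_mul, e1, e1, e2, e4]
      have g1 := hz_succ (m := m) (i + 1) 1
      have g2 := hz_succ (m := m) (i + 1) 2
      norm_num [add_assoc, hz_zero_right] at g1 g2 ⊢
      linear_combination hz m (i + 2) 1 * hz m (i + 4) 1 * g1 - hz m (i + 4) 1 * g2
    rw [hmul, hp]
    exact isSchub_1101 i h
  have c1 : ∀ k : Fin m, (k : ℕ) = i + 1 →
      IsSchub (vb m [(i, 2), (i + 1, 1), (i + 3, 1)] * sg k)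
        (dd1 k (hz m (i + 1) 2 * hz m (i + 2) 1 * hz m (i + 4) 1 -
          hz m (i + 1) 3 * hz m (i + 4) 1)) := by
    intro k hk
    have e1 := fun a => dd1_hz_ne (m := m) k (i + 1) (by omega) a
    have e2 := fun a => dd1_hz_eq (m := m) k (i + 2) (by omega) a
    have e4 := fun a => dd1_hz_ne (m := m) k (i + 4) (by omega) a
    have f1 := fun a => pact_hz (m := m) k (i + 1) a (by omega)
    have hmul : vb m [(i, 2), (i + 1, 1), (i + 3, 1)] * sg k = vb m [(i, 2), (i + 3, 1)] :=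
      vb_mul_window 4 i h [(0, 2), (1, 1), (3, 1)] [(0, 2), (3, 1)] (by decide)
        (by decide) 1 (by decide) (by decide) k (by omega)
    have hp : dd1 k (hz m (i + 1) 2 * hz m (i + 2) 1 * hz m (i + 4) 1 -
          hz m (i + 1) 3 * hz m (i + 4) 1) = hz m (i + 1) 2 * hz m (i + 4) 1 := by
      rw [dd1_sub, dd1_mul, dd1_mul, dd1_mul, e1, e1, e2, e4, f1, f1]
      norm_num [hz_zero_right]
    rw [hmul, hp]
    exact isSchub_2001 i h
  have c3 : ∀ k : Fin m, (k : ℕ) = i + 3 →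
      IsSchub (vb m [(i, 2), (i + 1, 1), (i + 3, 1)] * sg k)
        (dd1 k (hz m (i + 1) 2 * hz m (i + 2) 1 * hz m (i + 4) 1 -
          hz m (i + 1) 3 * hz m (i + 4) 1)) := by
    intro k hk
    have e1 := fun a => dd1_hz_ne (m := m) k (i + 1) (by omega) a
    have e2 := fun a => dd1_hz_ne (m := m) k (i + 2) (by omega) a
    have e4 := fun a => dd1_hz_eq (m := m) k (i + 4) (by omega) a
    have f1 := fun a => pact_hz (m := m) k (i + 1) a (by omega)
    have f2 := fun a => pact_hz (m := m) k (i + 2) a (by omega)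
    have hmul : vb m [(i, 2), (i + 1, 1), (i + 3, 1)] * sg k = vb m [(i, 2), (i + 1, 1)] :=
      vb_mul_window 4 i h [(0, 2), (1, 1), (3, 1)] [(0, 2), (1, 1)] (by decide)
        (by decide) 3 (by decide) (by decide) k (by omega)
    have hp : dd1 k (hz m (i + 1) 2 * hz m (i + 2) 1 * hz m (i + 4) 1 -
          hz m (i + 1) 3 * hz m (i + 4) 1) = hz m (i + 1) 2 * hz m (i + 2) 1 -
          hz m (i + 1) 3 := by
      rw [dd1_sub, dd1_mul, dd1_mul, dd1_mul, e1, e1, e2, e4, map_mul, f1, f1, f2]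
      norm_num [hz_zero_right]
    rw [hmul, hp]
    exact isSchub_21 i (by omega)
  refine isSchub_weak _ _ 3 hinv hhom (fun k => ?_) ⟨⟨i, by omega⟩, c0 _ rfl⟩
  by_cases h0 : (k : ℕ) = i
  · exact .inr (c0 k h0)
  by_cases h1 : (k : ℕ) = i + 1
  · exact .inr (c1 k h1)
  by_cases h3 : (k : ℕ) = i + 3
  · exact .inr (c3 k h3)
  left
  have e1 := fun a => dd1_hz_ne (m := m) k (i + 1) (by omega) a
  have e2 := fun a => dd1_hz_ne (m := m) k (i + 2) (by omega) a
  have e4 := fun a => dd1_hz_ne (m := m) k (i + 4) (by omega) a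
  rw [dd1_sub, dd1_mul, dd1_mul, dd1_mul, e1, e1, e2, e4]
  simp

/-- code (2,1,2) -/
theorem isSchub_212 (i : ℕ) (h : i + 4 ≤ m) :
    IsSchub (vb m [(i, 2), (i + 1, 1), (i + 2, 2)])
      (hz m (i + 1) 2 * hz m (i + 2) 1 * hz m (i + 3) 2 - hz m (i + 1) 2 * hz m (i + 2) 3 -
        hz m (i + 1) 3 * hz m (i + 3) 2 + hz m (i + 1) 5) := by
  have hinv : inv (vb m [(i, 2), (i + 1, 1), (i + 2, 2)]) = 4 + 1 :=
    (inv_vb_window 4 i h [(0, 2), (1, 1), (2, 2)] (by decide)).trans (by decide)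
  have hhom : (hz m (i + 1) 2 * hz m (i + 2) 1 * hz m (i + 3) 2 -
      hz m (i + 1) 2 * hz m (i + 2) 3 - hz m (i + 1) 3 * hz m (i + 3) 2 +
      hz m (i + 1) 5 : Pol m).IsHomogeneous (4 + 1) := by
    refine (((((hz_homog (i + 1) 2).mul (hz_homog (i + 2) 1)).mul (hz_homog (i + 3) 2)).sub
      ((hz_homog (i + 1) 2).mul (hz_homog (i + 2) 3))).sub
      ((hz_homog (i + 1) 3).mul (hz_homog (i + 3) 2))).add (hz_homog (i + 1) 5)
  have c0 : ∀ k : Fin m, (k : ℕ) = i →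
      IsSchub (vb m [(i, 2), (i + 1, 1), (i + 2, 2)] * sg k)
        (dd1 k (hz m (i + 1) 2 * hz m (i + 2) 1 * hz m (i + 3) 2 -
          hz m (i + 1) 2 * hz m (i + 2) 3 - hz m (i + 1) 3 * hz m (i + 3) 2 +
          hz m (i + 1) 5)) := by
    intro k hk
    have e1 := fun a => dd1_hz_eq (m := m) k (i + 1) (by omega) a
    have e2 := fun a => dd1_hz_ne (m := m) k (i + 2) (by omega) a
    have e3 := fun a => dd1_hz_ne (m := m) k (i + 3) (by omega) a
    have hmul : vb m [(i, 2), (i + 1, 1), (i + 2, 2)] * sg k =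
        vb m [(i, 1), (i + 1, 1), (i + 2, 2)] :=
      vb_mul_window 4 i h [(0, 2), (1, 1), (2, 2)] [(0, 1), (1, 1), (2, 2)] (by decide)
        (by decide) 0 (by decide) (by decide) k (by omega)
    have hp : dd1 k (hz m (i + 1) 2 * hz m (i + 2) 1 * hz m (i + 3) 2 -
          hz m (i + 1) 2 * hz m (i + 2) 3 - hz m (i + 1) 3 * hz m (i + 3) 2 +
          hz m (i + 1) 5) =
        hz m (i + 1) 1 * (hz m (i + 2) 1 * hz m (i + 3) 2 - hz m (i + 2) 3) -
          (hz m (i + 1) 2 * hz m (i + 3) 2 - hz m (i + 1) 4) := by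
      rw [dd1_add, dd1_sub, dd1_sub, dd1_mul, dd1_mul, dd1_mul, dd1_mul, e1, e1, e1, e2, e2, e3]
      have g1 := hz_succ (m := m) (i + 1) 1
      have g2 := hz_succ (m := m) (i + 1) 2
      have g4 := hz_succ (m := m) (i + 1) 4
      norm_num [add_assoc, hz_zero_right] at g1 g2 g4 ⊢
      linear_combination (hz m (i + 2) 1 * hz m (i + 3) 2 - hz m (i + 2) 3) * g1 -
        hz m (i + 3) 2 * g2 + g4
    rw [hmul, hp]
    exact isSchub_112 i h
  have c2 : ∀ k : Fin m, (k : ℕ) = i + 2 →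
      IsSchub (vb m [(i, 2), (i + 1, 1), (i + 2, 2)] * sg k)
        (dd1 k (hz m (i + 1) 2 * hz m (i + 2) 1 * hz m (i + 3) 2 -
          hz m (i + 1) 2 * hz m (i + 2) 3 - hz m (i + 1) 3 * hz m (i + 3) 2 +
          hz m (i + 1) 5)) := by
    intro k hk
    have e1 := fun a => dd1_hz_ne (m := m) k (i + 1) (by omega) a
    have e2 := fun a => dd1_hz_ne (m := m) k (i + 2) (by omega) a
    have e3 := fun a => dd1_hz_eq (m := m) k (i + 3) (by omega) a
    have f1 := fun a => pact_hz (m := m) k (i + 1) a (by omega)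
    have f2 := fun a => pact_hz (m := m) k (i + 2) a (by omega)
    have hmul : vb m [(i, 2), (i + 1, 1), (i + 2, 2)] * sg k =
        vb m [(i, 2), (i + 1, 1), (i + 3, 1)] :=
      vb_mul_window 4 i h [(0, 2), (1, 1), (2, 2)] [(0, 2), (1, 1), (3, 1)] (by decide)
        (by decide) 2 (by decide) (by decide) k (by omega)
    have hp : dd1 k (hz m (i + 1) 2 * hz m (i + 2) 1 * hz m (i + 3) 2 -
          hz m (i + 1) 2 * hz m (i + 2) 3 - hz m (i + 1) 3 * hz m (i + 3) 2 +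
          hz m (i + 1) 5) =
        hz m (i + 1) 2 * hz m (i + 2) 1 * hz m (i + 4) 1 -
          hz m (i + 1) 3 * hz m (i + 4) 1 := by
      rw [dd1_add, dd1_sub, dd1_sub, dd1_mul, dd1_mul, dd1_mul, dd1_mul, e1, e1, e1, e2, e2, e3,
        map_mul, f1, f1, f2]
      norm_num [hz_zero_right, add_assoc]
    rw [hmul, hp]
    exact isSchub_2101 i h
  refine isSchub_weak _ _ 4 hinv hhom (fun k => ?_) ⟨⟨i, by omega⟩, c0 _ rfl⟩
  by_cases h0 : (k : ℕ) = i
  · exact .inr (c0 k h0)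
  by_cases h2 : (k : ℕ) = i + 2
  · exact .inr (c2 k h2)
  left
  have e1 := fun a => dd1_hz_ne (m := m) k (i + 1) (by omega) a
  have e3 := fun a => dd1_hz_ne (m := m) k (i + 3) (by omega) a
  have f1 := fun a => pact_hz (m := m) k (i + 1) a (by omega)
  by_cases h1 : (k : ℕ) = i + 1
  · have e2 := fun a => dd1_hz_eq (m := m) k (i + 2) (by omega) a
    rw [dd1_add, dd1_sub, dd1_sub, dd1_mul, dd1_mul, dd1_mul, dd1_mul, e1, e1, e1, e2, e2, e3, f1]
    norm_num [hz_zero_right, add_assoc]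
  · have e2 := fun a => dd1_hz_ne (m := m) k (i + 2) (by omega) a
    rw [dd1_add, dd1_sub, dd1_sub, dd1_mul, dd1_mul, dd1_mul, dd1_mul, e1, e1, e1, e2, e2, e3]
    simp

/-- the polynomial of the code (2,1,2) acts nonnegatively -/
theorem PP_212 (i : ℕ) : PP (hz m (i + 1) 2 * hz m (i + 2) 1 * hz m (i + 3) 2 -
    hz m (i + 1) 2 * hz m (i + 2) 3 - hz m (i + 1) 3 * hz m (i + 3) 2 + hz m (i + 1) 5) := by
  intro x
  apply NN_of_Om
  have h : Om m (act m (hz m (i + 1) 2 * hz m (i + 2) 1 * hz m (i + 3) 2 -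
      hz m (i + 1) 2 * hz m (i + 2) 3 - hz m (i + 1) 3 * hz m (i + 3) 2 + hz m (i + 1) 5)
        (bas x)) =
      rib [((Sj m (i + 1), (2 : ℤ)) : Bl (Fin (m + 1))), (Sj m (i + 2), 1), (Sj m (i + 3), 2)]
        (wd (om x)) := by
    rw [map_add, map_sub, map_sub, LinearMap.add_apply, LinearMap.sub_apply,
      LinearMap.sub_apply, map_add, map_sub, map_sub, act_mul_apply, act_mul_apply,
      act_mul_apply, act_mul_apply, rib_cons, rib_cons, rib_cons, rib_single, rib_single,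
      rib_single]
    simp only [Om_act_hz, Om_bas, LinearMap.sub_apply, Module.End.mul_apply, map_sub]
    norm_num
    abel
  rw [h]
  refine rib_pos (X := Finset.univ)
    (L := [((Sj m (i + 1), (2 : ℤ)) : Bl (Fin (m + 1))), (Sj m (i + 2), 1), (Sj m (i + 3), 2)])
    ⟨?_, ?_, ?_, ⟨?_, ?_, ?_, trivial⟩⟩ ?_ (wd_mem _ (om_nodup x) (om_toFinset x)) (WN.wd _)
  · exact Sj_mono (by omega)
  · show (1 : ℤ) ≤ 2
    norm_num
  · have h := card_Sj_sdiff (i + 1) (i + 3) (Finset.univ : Finset (Fin (m + 1)))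
    show (((Sj m (i + 3) \ Sj m (i + 1)) ∩ Finset.univ).card : ℤ) ≤ 2 + ((1 : ℕ) : ℤ)
    push_cast
    omega
  · exact Sj_mono (by omega)
  · show (1 : ℤ) ≤ 1
    norm_num
  · have h := card_Sj_sdiff (i + 2) (i + 3) (Finset.univ : Finset (Fin (m + 1)))
    show (((Sj m (i + 3) \ Sj m (i + 2)) ∩ Finset.univ).card : ℤ) ≤ 1 + ((0 : ℕ) : ℤ)
    push_cast
    omega
  · show (1 : ℤ) ≤ 2
    norm_num

theorem EE_212 (i : ℕ) (h : i + 4 ≤ m) : EE (vb m [(i, 2), (i + 1, 1), (i + 2, 2)]) :=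
  ⟨_, isSchub_212 i h, PP_212 i⟩

end H50R
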