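import Pool.Agent.Helper82.CSB.C4d
import Pool.Agent.Helper50.CSB.Q5

/-!
# The code (3,1,0,1) (piece C4, part)
-/

namespace H50R

open H45C Equiv MvPolynomial

variable {m : ℕ}

/-- the polynomial of the code (3,1,0,1) acts nonnegatively -/
theorem PP_3101 (i : ℕ) : PP (hz m (i + 1) 3 * hz m (i + 2) 1 * hz m (i + 4) 1 -
    hz m (i + 1) 4 * hz m (i + 4) 1 - hz m (i + 1) 4 * hz m (i + 2) 1 + hz m (i + 1) 5) := by
  intro x
  apply NN_of_Om
  have h : Om m (act m (hz m (i + 1) 3 * hz m (i + 2) 1 * hz m (i + 4) 1 -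
      hz m (i + 1) 4 * hz m (i + 4) 1 - hz m (i + 1) 4 * hz m (i + 2) 1 + hz m (i + 1) 5)
        (bas x)) = Lam (Sj m (i + 1)) (Sj m (i + 2)) (Sj m (i + 4)) 3 (wd (om x)) := by
    rw [map_add, map_sub, map_sub, LinearMap.add_apply, LinearMap.sub_apply,
      LinearMap.sub_apply, map_add, map_sub, map_sub, act_mul_apply, act_mul_apply,
      act_mul_apply, act_mul_apply]
    simp only [Om_act_hz, Om_bas, Lam]
    norm_num
    abel
  rw [h]
  have h1 := card_Sj_sdiff (i + 1) (i + 2) (Finset.univ : Finset (Fin (m + 1)))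
  have h2 := card_Sj_sdiff (i + 1) (i + 4) (Finset.univ : Finset (Fin (m + 1)))
  exact Lam_pos (X := Finset.univ) (Sj_mono (by omega)) (Sj_mono (by omega)) (by norm_num)
    (by omega) (fun _ => by norm_num) (by omega) (wd_mem _ (om_nodup x) (om_toFinset x))
    (WN.wd _)

theorem EE_3101 (i : ℕ) (h : i + 4 ≤ m) : EE (vb m [(i, 3), (i + 1, 1), (i + 3, 1)]) :=
  ⟨_, isSchub_3101 i h, PP_3101 i⟩

end H50R
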