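import Pool.Agent.Helper82.CSB.C5a

/-!
# Computations in a window `{i, ..., i+n}` (tools for piece C4)
-/

namespace H50R

open H45C Equiv MvPolynomial

variable {m : ℕ}

theorem inv_sh (n i : ℕ) (h : i + n ≤ m) (p : Perm (Fin (n + 1))) :
    inv (sh n i h p) = inv p := by
  symm
  unfold inv
  refine Finset.card_bij (fun q _ => (emb n i h q.1, emb n i h q.2)) ?_ ?_ ?_
  · intro q hq
    simp only [Finset.mem_filter, Finset.mem_univ, true_and, sh_emb, Fin.lt_def, emb_val] at hq ⊢
    omega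
  · intro a _ b _ hab
    simp only [Prod.mk.injEq, EmbeddingLike.apply_eq_iff_eq] at hab
    exact Prod.ext hab.1 hab.2
  · rintro ⟨x, y⟩ hxy
    simp only [Finset.mem_filter, Finset.mem_univ, true_and] at hxy
    obtain ⟨h1, h2⟩ := hxy
    rw [Fin.lt_def] at h1 h2
    by_cases hx : (x : ℕ) < i ∨ i + n < (x : ℕ)
    · rw [sh_not n i h p x hx] at h2
      by_cases hy : (y : ℕ) < i ∨ i + n < (y : ℕ)
      · rw [sh_not n i h p y hy] at h2
        omega
      · obtain ⟨j, rfl⟩ := exists_emb n i h y hy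
        rw [sh_emb, emb_val] at h2
        rw [emb_val] at h1 hy
        have := (p j).2
        omega
    · obtain ⟨j, rfl⟩ := exists_emb n i h x hx
      rw [sh_emb, emb_val] at h2
      rw [emb_val] at h1 hx
      by_cases hy : (y : ℕ) < i ∨ i + n < (y : ℕ)
      · rw [sh_not n i h p y hy] at h2
        have := (p j).2
        omega
      · obtain ⟨j', rfl⟩ := exists_emb n i h y hy
        rw [sh_emb, emb_val] at h2
        rw [emb_val] at h1
        refine ⟨(j, j'), ?_, rfl⟩
        simp only [Finset.mem_filter, Finset.mem_univ, true_and, Fin.lt_def]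
        omega

/-- the inversions of a product of rows in a window -/
theorem inv_vb_window (n i : ℕ) (h : i + n ≤ m) (L : List (ℕ × ℕ))
    (hL : ∀ b ∈ L, b.1 + b.2 ≤ n) :
    inv (vb m (L.map fun b => (i + b.1, b.2))) = inv (vb n L) := by
  rw [← sh_vb n i h L hL, inv_sh]

/-- products in a window -/
theorem vb_mul_window (n i : ℕ) (h : i + n ≤ m) (L L' : List (ℕ × ℕ))
    (hL : ∀ b ∈ L, b.1 + b.2 ≤ n) (hL' : ∀ b ∈ L', b.1 + b.2 ≤ n) (k : ℕ) (hk : k < n)
    (e : vb n L * sg ⟨k, hk⟩ = vb n L') (k' : Fin m) (hk' : (k' : ℕ) = i + k) :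
    vb m (L.map fun b => (i + b.1, b.2)) * sg k' = vb m (L'.map fun b => (i + b.1, b.2)) := by
  have h1 : sg k' = sn m (i + k) := by
    rw [sn_of_lt (show i + k < m by omega)]
    congr 1
    exact Fin.ext hk'
  rw [← sh_vb n i h L hL, ← sh_vb n i h L' hL', ← e, map_mul, h1, ← sh_sn n i h k hk,
    sn_of_lt hk]

end H50R
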