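import Pool.Agent.Helper50.CSB.Q0

/-!
# Duality for products of rows (piece C5, first part)

`sh n i` embeds `Perm (Fin (n+1))` into `Perm (Fin (m+1))` as the permutations of
`{i, ..., i+n}`; conjugation by `w₀` exchanges `sh n i p` and `sh n (m-n-i) (w₀ p w₀)`.
-/

namespace H50R

open H45C Equiv MvPolynomial

variable {m : ℕ}

/-- duality -/
theorem EE_dual (v : WG m) (h : EE (w0 m * v * w0 m)) : EE v := by
  obtain ⟨Q, hQ, hPP⟩ := h
  refine ⟨th m Q, ?_, PP_th Q hPP⟩
  have h1 := isSchub_th _ _ hQ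
  have h2 : w0 m * (w0 m * v * w0 m) * w0 m = v := by
    have := w0_mul_w0 (m := m)
    calc w0 m * (w0 m * v * w0 m) * w0 m = (w0 m * w0 m) * v * (w0 m * w0 m) := by
          simp only [mul_assoc]
      _ = v := by rw [this, one_mul, mul_one]
  rwa [h2] at h1

/-- the embedding `j ↦ i + j` -/
def emb (n i : ℕ) (h : i + n ≤ m) : Fin (n + 1) ↪ Fin (m + 1) where
  toFun j := ⟨i + j, by have := j.2; omega⟩
  inj' := fun a b hab => by
    have := congrArg Fin.val hab
    exact Fin.ext (by simpa using this)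

theorem emb_val (n i : ℕ) (h : i + n ≤ m) (j : Fin (n + 1)) : ((emb n i h j : Fin (m + 1)) : ℕ) =
    i + j := rfl

/-- the permutations of `{i, ..., i+n}` -/
noncomputable def sh (n i : ℕ) (h : i + n ≤ m) : Perm (Fin (n + 1)) →* WG m :=
  Perm.viaEmbeddingHom (emb n i h)

theorem sh_emb (n i : ℕ) (h : i + n ≤ m) (p : Perm (Fin (n + 1))) (j : Fin (n + 1)) :
    sh n i h p (emb n i h j) = emb n i h (p j) :=
  Perm.viaEmbedding_apply p (emb n i h) j

theorem sh_not (n i : ℕ) (h : i + n ≤ m) (p : Perm (Fin (n + 1))) (x : Fin (m + 1))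
    (hx : (x : ℕ) < i ∨ i + n < (x : ℕ)) : sh n i h p x = x := by
  refine Perm.viaEmbedding_apply_of_notMem p (emb n i h) x ?_
  rintro ⟨j, rfl⟩
  rw [emb_val] at hx
  have := j.2
  omega

theorem exists_emb (n i : ℕ) (h : i + n ≤ m) (x : Fin (m + 1))
    (hx : ¬ ((x : ℕ) < i ∨ i + n < (x : ℕ))) : ∃ j, emb n i h j = x :=
  ⟨⟨x - i, by omega⟩, Fin.ext (by rw [emb_val]; simp only; omega)⟩

theorem sh_sn (n i : ℕ) (h : i + n ≤ m) (k : ℕ) (hk : k < n) :
    sh n i h (sn n k) = sn m (i + k) := by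
  rw [sn_of_lt hk, sn_of_lt (show i + k < m by omega)]
  ext x
  by_cases hx : (x : ℕ) < i ∨ i + n < (x : ℕ)
  · rw [sh_not n i h _ x hx, sg_of_ne _ x (by simp only; omega) (by simp only; omega)]
  · obtain ⟨j, rfl⟩ := exists_emb n i h x hx
    rw [sh_emb]
    by_cases h1 : (j : ℕ) = k
    · have e1 : sg (⟨k, hk⟩ : Fin n) j = (⟨k, hk⟩ : Fin n).succ := by
        have : j = (⟨k, hk⟩ : Fin n).castSucc := Fin.ext h1
        subst this
        exact swap_apply_left _ _
      have e2 : sg (⟨i + k, by omega⟩ : Fin m) (emb n i h j) =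
          (⟨i + k, by omega⟩ : Fin m).succ := by
        have : emb n i h j = (⟨i + k, by omega⟩ : Fin m).castSucc := Fin.ext (by
          rw [emb_val, h1]; rfl)
        rw [this]
        exact swap_apply_left _ _
      rw [e1, e2, emb_val]
      simp [add_assoc]
    · by_cases h2 : (j : ℕ) = k + 1
      · have e1 : sg (⟨k, hk⟩ : Fin n) j = (⟨k, hk⟩ : Fin n).castSucc := by
          have : j = (⟨k, hk⟩ : Fin n).succ := Fin.ext h2
          subst this
          exact swap_apply_right _ _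
        have e2 : sg (⟨i + k, by omega⟩ : Fin m) (emb n i h j) =
            (⟨i + k, by omega⟩ : Fin m).castSucc := by
          have : emb n i h j = (⟨i + k, by omega⟩ : Fin m).succ := Fin.ext (by
            rw [emb_val, h2]; rfl)
          rw [this]
          exact swap_apply_right _ _
        rw [e1, e2, emb_val]
        simp
      · rw [sg_of_ne _ j h1 h2, sg_of_ne _ (emb n i h j) (by rw [emb_val]; simp only; omega)
          (by rw [emb_val]; simp only; omega)]

theorem sh_row (n i : ℕ) (h : i + n ≤ m) (a : ℕ) : ∀ j, j + a ≤ n →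
    sh n i h (row n j a) = row m (i + j) a := by
  induction a with
  | zero => intro j _; exact map_one _
  | succ a ih =>
    intro j hj
    rw [row, row, map_mul, ih (j + 1) (by omega), sh_sn n i h j (by omega), add_assoc]

theorem sh_vb (n i : ℕ) (h : i + n ≤ m) (L : List (ℕ × ℕ)) (hL : ∀ b ∈ L, b.1 + b.2 ≤ n) :
    sh n i h (vb n L) = vb m (L.map fun b => (i + b.1, b.2)) := by
  induction L with
  | nil => exact map_one _
  | cons b L ih =>
    rw [vb, List.map_cons, vb, map_mul, ih fun c hc => hL c (List.mem_cons_of_mem _ hc),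
      sh_row n i h b.2 b.1 (hL b List.mem_cons_self)]

theorem w0_sh (n i i' : ℕ) (h : i + n ≤ m) (h' : i' + n ≤ m) (hi : i + i' + n = m)
    (p : Perm (Fin (n + 1))) :
    w0 m * sh n i h p * w0 m = sh n i' h' (w0 n * p * w0 n) := by
  ext x
  simp only [Perm.mul_apply, w0, Fin.revPerm_apply]
  by_cases hx : (x : ℕ) < i' ∨ i' + n < (x : ℕ)
  · rw [sh_not n i' h' _ x hx, sh_not n i h p (Fin.rev x) (by
      rw [Fin.val_rev]; have := x.2; omega), Fin.rev_rev]
  · obtain ⟨j, rfl⟩ := exists_emb n i' h' x hx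
    have e1 : Fin.rev (emb n i' h' j) = emb n i h (Fin.rev j) := Fin.ext (by
      rw [Fin.val_rev, emb_val, emb_val, Fin.val_rev]; have := j.2; omega)
    rw [sh_emb, e1, sh_emb]
    have e2 : ∀ y : Fin (n + 1), Fin.rev (emb n i h y) = emb n i' h' (Fin.rev y) := fun y =>
      Fin.ext (by rw [Fin.val_rev, emb_val, emb_val, Fin.val_rev]; have := y.2; omega)
    rw [e2]
    rfl

/-- the classes of two dual products of rows -/
theorem EE_of_dual (n i : ℕ) (h : i + n ≤ m) (L L' : List (ℕ × ℕ))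
    (hL : ∀ b ∈ L, b.1 + b.2 ≤ n) (hL' : ∀ b ∈ L', b.1 + b.2 ≤ n)
    (e : w0 n * vb n L * w0 n = vb n L')
    (hE : EE (vb m (L'.map fun b => (m - n - i + b.1, b.2)))) :
    EE (vb m (L.map fun b => (i + b.1, b.2))) := by
  apply EE_dual
  rw [← sh_vb n i h L hL, w0_sh n i (m - n - i) h (by omega) (by omega), e, sh_vb _ _ _ L' hL']
  exact hE

theorem w0_211 : w0 3 * vb 3 [(0, 2), (1, 1), (2, 1)] * w0 3 = vb 3 [(0, 3), (2, 1)] := by
  decide

theorem w0_121 : w0 3 * vb 3 [(0, 1), (1, 2), (2, 1)] * w0 3 = vb 3 [(0, 3), (1, 1)] := by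
  decide

theorem w0_1121 : w0 4 * vb 4 [(0, 1), (1, 1), (2, 2), (3, 1)] * w0 4 =
    vb 4 [(0, 4), (1, 1)] := by
  decide

theorem w0_1211 : w0 4 * vb 4 [(0, 1), (1, 2), (2, 1), (3, 1)] * w0 4 =
    vb 4 [(0, 4), (2, 1)] := by
  decide

theorem w0_2111 : w0 4 * vb 4 [(0, 2), (1, 1), (2, 1), (3, 1)] * w0 4 =
    vb 4 [(0, 4), (3, 1)] := by
  decide

theorem w0_221 : w0 3 * vb 3 [(0, 2), (1, 2), (2, 1)] * w0 3 = vb 3 [(0, 3), (1, 2)] := by
  decide

theorem w0_122 : w0 4 * vb 4 [(0, 1), (1, 2), (2, 2)] * w0 4 = vb 4 [(0, 2), (1, 3)] := by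
  decide

theorem w0_2201 : w0 4 * vb 4 [(0, 2), (1, 2), (3, 1)] * w0 4 = vb 4 [(0, 3), (2, 2)] := by
  decide

theorem w0_1301 : w0 4 * vb 4 [(0, 1), (1, 3), (3, 1)] * w0 4 =
    vb 4 [(0, 2), (1, 1), (2, 2)] := by
  decide

theorem w0_2021 : w0 4 * vb 4 [(0, 2), (2, 2), (3, 1)] * w0 4 =
    vb 4 [(0, 3), (1, 1), (3, 1)] := by
  decide

end H50R
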