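import Pool.Agent.Helper82.CSB.C4d
import Pool.Agent.Helper13.CSB.C4

/-!
# The polynomial of the code (3,2,1) (piece G5, first part)
-/

namespace H50R

open H45C Equiv MvPolynomial

variable {m : ℕ}

/-- code (2,0,1) -/
theorem isSchub_201 (i : ℕ) (h : i + 3 ≤ m) : IsSchub (vb m [(i, 2), (i + 2, 1)])
    (hz m (i + 1) 2 * hz m (i + 3) 1 - hz m (i + 1) 3) := by
  have h1 := isSchub_pb (m := m) [(i, 2), (i + 2, 1)] ⟨by simp, by simp, by simp,
    by simp; omega⟩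
  have h2 : pb m [(i, 2), (i + 2, 1)] = hz m (i + 1) 2 * hz m (i + 3) 1 - hz m (i + 1) 3 := by
    rw [pb_cons, if_pos (by simp), pb_single, pb_single]
    norm_num [add_assoc]
  rwa [h2] at h1

/-- code (2,2) -/
theorem isSchub_22 (i : ℕ) (h : i + 3 ≤ m) : IsSchub (vb m [(i, 2), (i + 1, 2)])
    (hz m (i + 1) 2 * hz m (i + 2) 2 - hz m (i + 1) 3 * hz m (i + 2) 1) := by
  have hinv : inv (vb m [(i, 2), (i + 1, 2)]) = 3 + 1 :=
    (inv_vb_window 3 i h [(0, 2), (1, 2)] (by decide)).trans (by decide)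
  have hhom : (hz m (i + 1) 2 * hz m (i + 2) 2 - hz m (i + 1) 3 * hz m (i + 2) 1 :
      Pol m).IsHomogeneous (3 + 1) :=
    ((hz_homog (i + 1) 2).mul (hz_homog (i + 2) 2)).sub
      ((hz_homog (i + 1) 3).mul (hz_homog (i + 2) 1))
  have c1 : ∀ k : Fin m, (k : ℕ) = i + 1 → IsSchub (vb m [(i, 2), (i + 1, 2)] * sg k)
      (dd1 k (hz m (i + 1) 2 * hz m (i + 2) 2 - hz m (i + 1) 3 * hz m (i + 2) 1)) := by
    intro k hk
    have e1 := fun a => dd1_hz_ne (m := m) k (i + 1) (by omega) a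
    have e2 := fun a => dd1_hz_eq (m := m) k (i + 2) (by omega) a
    have f1 := fun a => pact_hz (m := m) k (i + 1) a (by omega)
    have hmul : vb m [(i, 2), (i + 1, 2)] * sg k = vb m [(i, 2), (i + 2, 1)] :=
      vb_mul_window 3 i h [(0, 2), (1, 2)] [(0, 2), (2, 1)] (by decide)
        (by decide) 1 (by decide) (by decide) k (by omega)
    have hp : dd1 k (hz m (i + 1) 2 * hz m (i + 2) 2 - hz m (i + 1) 3 * hz m (i + 2) 1) =
        hz m (i + 1) 2 * hz m (i + 3) 1 - hz m (i + 1) 3 := by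
      rw [dd1_sub, dd1_mul, dd1_mul, e1, e1, e2, e2, f1, f1]
      norm_num [hz_zero_right, add_assoc]
    rw [hmul, hp]
    exact isSchub_201 i h
  refine isSchub_weak _ _ 3 hinv hhom (fun k => ?_) ⟨⟨i + 1, by omega⟩, c1 _ rfl⟩
  by_cases h1 : (k : ℕ) = i + 1
  · exact .inr (c1 k h1)
  left
  have e2 := fun a => dd1_hz_ne (m := m) k (i + 2) (by omega) a
  by_cases h0 : (k : ℕ) = i
  · have e1 := fun a => dd1_hz_eq (m := m) k (i + 1) (by omega) a
    rw [dd1_sub, dd1_mul, dd1_mul, e1, e1, e2, e2]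
    norm_num [add_assoc]
    ring
  · have e1 := fun a => dd1_hz_ne (m := m) k (i + 1) (by omega) a
    rw [dd1_sub, dd1_mul, dd1_mul, e1, e1, e2, e2]
    simp

/-- code (3,2) -/
theorem isSchub_32 (i : ℕ) (h : i + 3 ≤ m) : IsSchub (vb m [(i, 3), (i + 1, 2)])
    (hz m (i + 1) 3 * hz m (i + 2) 2 - hz m (i + 1) 4 * hz m (i + 2) 1) := by
  have hinv : inv (vb m [(i, 3), (i + 1, 2)]) = 4 + 1 :=
    (inv_vb_window 3 i h [(0, 3), (1, 2)] (by decide)).trans (by decide)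
  have hhom : (hz m (i + 1) 3 * hz m (i + 2) 2 - hz m (i + 1) 4 * hz m (i + 2) 1 :
      Pol m).IsHomogeneous (4 + 1) :=
    ((hz_homog (i + 1) 3).mul (hz_homog (i + 2) 2)).sub
      ((hz_homog (i + 1) 4).mul (hz_homog (i + 2) 1))
  have c0 : ∀ k : Fin m, (k : ℕ) = i → IsSchub (vb m [(i, 3), (i + 1, 2)] * sg k)
      (dd1 k (hz m (i + 1) 3 * hz m (i + 2) 2 - hz m (i + 1) 4 * hz m (i + 2) 1)) := by
    intro k hk
    have e1 := fun a => dd1_hz_eq (m := m) k (i + 1) (by omega) a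
    have e2 := fun a => dd1_hz_ne (m := m) k (i + 2) (by omega) a
    have hmul : vb m [(i, 3), (i + 1, 2)] * sg k = vb m [(i, 2), (i + 1, 2)] :=
      vb_mul_window 3 i h [(0, 3), (1, 2)] [(0, 2), (1, 2)] (by decide)
        (by decide) 0 (by decide) (by decide) k (by omega)
    have hp : dd1 k (hz m (i + 1) 3 * hz m (i + 2) 2 - hz m (i + 1) 4 * hz m (i + 2) 1) =
        hz m (i + 1) 2 * hz m (i + 2) 2 - hz m (i + 1) 3 * hz m (i + 2) 1 := by
      rw [dd1_sub, dd1_mul, dd1_mul, e1, e1, e2, e2]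
      have g2 := hz_succ (m := m) (i + 1) 2
      have g3 := hz_succ (m := m) (i + 1) 3
      norm_num [add_assoc, hz_zero_right] at g2 g3 ⊢
      linear_combination hz m (i + 2) 2 * g2 - hz m (i + 2) 1 * g3
    rw [hmul, hp]
    exact isSchub_22 i h
  have c1 : ∀ k : Fin m, (k : ℕ) = i + 1 → IsSchub (vb m [(i, 3), (i + 1, 2)] * sg k)
      (dd1 k (hz m (i + 1) 3 * hz m (i + 2) 2 - hz m (i + 1) 4 * hz m (i + 2) 1)) := by
    intro k hk
    have e1 := fun a => dd1_hz_ne (m := m) k (i + 1) (by omega) a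
    have e2 := fun a => dd1_hz_eq (m := m) k (i + 2) (by omega) a
    have f1 := fun a => pact_hz (m := m) k (i + 1) a (by omega)
    have hmul : vb m [(i, 3), (i + 1, 2)] * sg k = vb m [(i, 3), (i + 2, 1)] :=
      vb_mul_window 3 i h [(0, 3), (1, 2)] [(0, 3), (2, 1)] (by decide)
        (by decide) 1 (by decide) (by decide) k (by omega)
    have hp : dd1 k (hz m (i + 1) 3 * hz m (i + 2) 2 - hz m (i + 1) 4 * hz m (i + 2) 1) =
        hz m (i + 1) 3 * hz m (i + 3) 1 - hz m (i + 1) 4 := by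
      rw [dd1_sub, dd1_mul, dd1_mul, e1, e1, e2, e2, f1, f1]
      norm_num [hz_zero_right, add_assoc]
    rw [hmul, hp]
    exact isSchub_301 i h
  refine isSchub_weak _ _ 4 hinv hhom (fun k => ?_) ⟨⟨i, by omega⟩, c0 _ rfl⟩
  by_cases h0 : (k : ℕ) = i
  · exact .inr (c0 k h0)
  by_cases h1 : (k : ℕ) = i + 1
  · exact .inr (c1 k h1)
  left
  have e1 := fun a => dd1_hz_ne (m := m) k (i + 1) (by omega) a
  have e2 := fun a => dd1_hz_ne (m := m) k (i + 2) (by omega) a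
  rw [dd1_sub, dd1_mul, dd1_mul, e1, e1, e2, e2]
  simp

/-- code (2,2,1) -/
theorem isSchub_221 (i : ℕ) (h : i + 3 ≤ m) : IsSchub (vb m [(i, 2), (i + 1, 2), (i + 2, 1)])
    (hz m (i + 1) 2 * hz m (i + 2) 2 * hz m (i + 3) 1 - hz m (i + 1) 2 * hz m (i + 2) 3 -
      hz m (i + 1) 3 * hz m (i + 2) 1 * hz m (i + 3) 1 + hz m (i + 1) 4 * hz m (i + 2) 1) := by
  have hinv : inv (vb m [(i, 2), (i + 1, 2), (i + 2, 1)]) = 4 + 1 :=
    (inv_vb_window 3 i h [(0, 2), (1, 2), (2, 1)] (by decide)).trans (by decide)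
  have hhom : (hz m (i + 1) 2 * hz m (i + 2) 2 * hz m (i + 3) 1 -
      hz m (i + 1) 2 * hz m (i + 2) 3 - hz m (i + 1) 3 * hz m (i + 2) 1 * hz m (i + 3) 1 +
      hz m (i + 1) 4 * hz m (i + 2) 1 : Pol m).IsHomogeneous (4 + 1) :=
    (((((hz_homog (i + 1) 2).mul (hz_homog (i + 2) 2)).mul (hz_homog (i + 3) 1)).sub
      ((hz_homog (i + 1) 2).mul (hz_homog (i + 2) 3))).sub
      (((hz_homog (i + 1) 3).mul (hz_homog (i + 2) 1)).mul (hz_homog (i + 3) 1))).add
      ((hz_homog (i + 1) 4).mul (hz_homog (i + 2) 1))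
  have c1 : ∀ k : Fin m, (k : ℕ) = i + 1 →
      IsSchub (vb m [(i, 2), (i + 1, 2), (i + 2, 1)] * sg k)
        (dd1 k (hz m (i + 1) 2 * hz m (i + 2) 2 * hz m (i + 3) 1 -
          hz m (i + 1) 2 * hz m (i + 2) 3 - hz m (i + 1) 3 * hz m (i + 2) 1 * hz m (i + 3) 1 +
          hz m (i + 1) 4 * hz m (i + 2) 1)) := by
    intro k hk
    have e1 := fun a => dd1_hz_ne (m := m) k (i + 1) (by omega) a
    have e2 := fun a => dd1_hz_eq (m := m) k (i + 2) (by omega) a
    have e3 := fun a => dd1_hz_ne (m := m) k (i + 3) (by omega) a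
    have f1 := fun a => pact_hz (m := m) k (i + 1) a (by omega)
    have hmul : vb m [(i, 2), (i + 1, 2), (i + 2, 1)] * sg k =
        vb m [(i, 2), (i + 1, 1), (i + 2, 1)] :=
      vb_mul_window 3 i h [(0, 2), (1, 2), (2, 1)] [(0, 2), (1, 1), (2, 1)] (by decide)
        (by decide) 1 (by decide) (by decide) k (by omega)
    have hp : dd1 k (hz m (i + 1) 2 * hz m (i + 2) 2 * hz m (i + 3) 1 -
          hz m (i + 1) 2 * hz m (i + 2) 3 - hz m (i + 1) 3 * hz m (i + 2) 1 * hz m (i + 3) 1 +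
          hz m (i + 1) 4 * hz m (i + 2) 1) =
        hz m (i + 1) 2 * hz m (i + 2) 1 * hz m (i + 3) 1 - hz m (i + 1) 2 * hz m (i + 2) 2 -
          hz m (i + 1) 3 * hz m (i + 3) 1 + hz m (i + 1) 4 := by
      rw [dd1_add, dd1_sub, dd1_sub, dd1_mul, dd1_mul, dd1_mul, dd1_mul, dd1_mul, dd1_mul,
        e1, e1, e1, e2, e2, e2, e3, f1, f1, f1]
      have g1 := hz_succ (m := m) (i + 2) 1
      have g2 := hz_succ (m := m) (i + 2) 2
      norm_num [add_assoc, hz_zero_right] at g1 g2 ⊢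
      linear_combination hz m (i + 1) 2 * hz m (i + 3) 1 * g1 - hz m (i + 1) 2 * g2
    rw [hmul, hp]
    exact isSchub_211 i h
  have c2 : ∀ k : Fin m, (k : ℕ) = i + 2 →
      IsSchub (vb m [(i, 2), (i + 1, 2), (i + 2, 1)] * sg k)
        (dd1 k (hz m (i + 1) 2 * hz m (i + 2) 2 * hz m (i + 3) 1 -
          hz m (i + 1) 2 * hz m (i + 2) 3 - hz m (i + 1) 3 * hz m (i + 2) 1 * hz m (i + 3) 1 +
          hz m (i + 1) 4 * hz m (i + 2) 1)) := by
    intro k hk
    have e1 := fun a => dd1_hz_ne (m := m) k (i + 1) (by omega) a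
    have e2 := fun a => dd1_hz_ne (m := m) k (i + 2) (by omega) a
    have e3 := fun a => dd1_hz_eq (m := m) k (i + 3) (by omega) a
    have f1 := fun a => pact_hz (m := m) k (i + 1) a (by omega)
    have f2 := fun a => pact_hz (m := m) k (i + 2) a (by omega)
    have hmul : vb m [(i, 2), (i + 1, 2), (i + 2, 1)] * sg k = vb m [(i, 2), (i + 1, 2)] :=
      vb_mul_window 3 i h [(0, 2), (1, 2), (2, 1)] [(0, 2), (1, 2)] (by decide)
        (by decide) 2 (by decide) (by decide) k (by omega)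
    have hp : dd1 k (hz m (i + 1) 2 * hz m (i + 2) 2 * hz m (i + 3) 1 -
          hz m (i + 1) 2 * hz m (i + 2) 3 - hz m (i + 1) 3 * hz m (i + 2) 1 * hz m (i + 3) 1 +
          hz m (i + 1) 4 * hz m (i + 2) 1) =
        hz m (i + 1) 2 * hz m (i + 2) 2 - hz m (i + 1) 3 * hz m (i + 2) 1 := by
      simp only [dd1_add, dd1_sub, dd1_mul, e1, e2, e3, map_mul, f1, f2]
      norm_num [hz_zero_right, add_assoc]
    rw [hmul, hp]
    exact isSchub_22 i h
  refine isSchub_weak _ _ 4 hinv hhom (fun k => ?_) ⟨⟨i + 1, by omega⟩, c1 _ rfl⟩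
  by_cases h1 : (k : ℕ) = i + 1
  · exact .inr (c1 k h1)
  by_cases h2 : (k : ℕ) = i + 2
  · exact .inr (c2 k h2)
  left
  have e2 := fun a => dd1_hz_ne (m := m) k (i + 2) (by omega) a
  have e3 := fun a => dd1_hz_ne (m := m) k (i + 3) (by omega) a
  by_cases h0 : (k : ℕ) = i
  · have e1 := fun a => dd1_hz_eq (m := m) k (i + 1) (by omega) a
    simp only [dd1_add, dd1_sub, dd1_mul, e1, e2, e3]
    norm_num [add_assoc]
    ring
  · have e1 := fun a => dd1_hz_ne (m := m) k (i + 1) (by omega) a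
    simp only [dd1_add, dd1_sub, dd1_mul, e1, e2, e3]
    simp

/-- code (3,2,1): the longest element of `S_4` -/
theorem isSchub_321 (i : ℕ) (h : i + 3 ≤ m) : IsSchub (vb m [(i, 3), (i + 1, 2), (i + 2, 1)])
    (hz m (i + 1) 3 * hz m (i + 2) 2 * hz m (i + 3) 1 - hz m (i + 1) 3 * hz m (i + 2) 3 -
      hz m (i + 1) 4 * hz m (i + 2) 1 * hz m (i + 3) 1 + hz m (i + 1) 5 * hz m (i + 2) 1) := by
  have hinv : inv (vb m [(i, 3), (i + 1, 2), (i + 2, 1)]) = 5 + 1 :=
    (inv_vb_window 3 i h [(0, 3), (1, 2), (2, 1)] (by decide)).trans (by decide)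
  have hhom : (hz m (i + 1) 3 * hz m (i + 2) 2 * hz m (i + 3) 1 -
      hz m (i + 1) 3 * hz m (i + 2) 3 - hz m (i + 1) 4 * hz m (i + 2) 1 * hz m (i + 3) 1 +
      hz m (i + 1) 5 * hz m (i + 2) 1 : Pol m).IsHomogeneous (5 + 1) :=
    (((((hz_homog (i + 1) 3).mul (hz_homog (i + 2) 2)).mul (hz_homog (i + 3) 1)).sub
      ((hz_homog (i + 1) 3).mul (hz_homog (i + 2) 3))).sub
      (((hz_homog (i + 1) 4).mul (hz_homog (i + 2) 1)).mul (hz_homog (i + 3) 1))).add
      ((hz_homog (i + 1) 5).mul (hz_homog (i + 2) 1))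
  have c0 : ∀ k : Fin m, (k : ℕ) = i →
      IsSchub (vb m [(i, 3), (i + 1, 2), (i + 2, 1)] * sg k)
        (dd1 k (hz m (i + 1) 3 * hz m (i + 2) 2 * hz m (i + 3) 1 -
          hz m (i + 1) 3 * hz m (i + 2) 3 - hz m (i + 1) 4 * hz m (i + 2) 1 * hz m (i + 3) 1 +
          hz m (i + 1) 5 * hz m (i + 2) 1)) := by
    intro k hk
    have e1 := fun a => dd1_hz_eq (m := m) k (i + 1) (by omega) a
    have e2 := fun a => dd1_hz_ne (m := m) k (i + 2) (by omega) a
    have e3 := fun a => dd1_hz_ne (m := m) k (i + 3) (by omega) a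
    have hmul : vb m [(i, 3), (i + 1, 2), (i + 2, 1)] * sg k =
        vb m [(i, 2), (i + 1, 2), (i + 2, 1)] :=
      vb_mul_window 3 i h [(0, 3), (1, 2), (2, 1)] [(0, 2), (1, 2), (2, 1)] (by decide)
        (by decide) 0 (by decide) (by decide) k (by omega)
    have hp : dd1 k (hz m (i + 1) 3 * hz m (i + 2) 2 * hz m (i + 3) 1 -
          hz m (i + 1) 3 * hz m (i + 2) 3 - hz m (i + 1) 4 * hz m (i + 2) 1 * hz m (i + 3) 1 +
          hz m (i + 1) 5 * hz m (i + 2) 1) =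
        hz m (i + 1) 2 * hz m (i + 2) 2 * hz m (i + 3) 1 - hz m (i + 1) 2 * hz m (i + 2) 3 -
          hz m (i + 1) 3 * hz m (i + 2) 1 * hz m (i + 3) 1 +
          hz m (i + 1) 4 * hz m (i + 2) 1 := by
      simp only [dd1_add, dd1_sub, dd1_mul, e1, e2, e3]
      have g2 := hz_succ (m := m) (i + 1) 2
      have g3 := hz_succ (m := m) (i + 1) 3
      have g4 := hz_succ (m := m) (i + 1) 4
      norm_num [add_assoc, hz_zero_right] at g2 g3 g4 ⊢
      linear_combination (hz m (i + 2) 2 * hz m (i + 3) 1 - hz m (i + 2) 3) * g2 -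
        hz m (i + 2) 1 * hz m (i + 3) 1 * g3 + hz m (i + 2) 1 * g4
    rw [hmul, hp]
    exact isSchub_221 i h
  have c1 : ∀ k : Fin m, (k : ℕ) = i + 1 →
      IsSchub (vb m [(i, 3), (i + 1, 2), (i + 2, 1)] * sg k)
        (dd1 k (hz m (i + 1) 3 * hz m (i + 2) 2 * hz m (i + 3) 1 -
          hz m (i + 1) 3 * hz m (i + 2) 3 - hz m (i + 1) 4 * hz m (i + 2) 1 * hz m (i + 3) 1 +
          hz m (i + 1) 5 * hz m (i + 2) 1)) := by
    intro k hk
    have e1 := fun a => dd1_hz_ne (m := m) k (i + 1) (by omega) a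
    have e2 := fun a => dd1_hz_eq (m := m) k (i + 2) (by omega) a
    have e3 := fun a => dd1_hz_ne (m := m) k (i + 3) (by omega) a
    have f1 := fun a => pact_hz (m := m) k (i + 1) a (by omega)
    have hmul : vb m [(i, 3), (i + 1, 2), (i + 2, 1)] * sg k =
        vb m [(i, 3), (i + 1, 1), (i + 2, 1)] :=
      vb_mul_window 3 i h [(0, 3), (1, 2), (2, 1)] [(0, 3), (1, 1), (2, 1)] (by decide)
        (by decide) 1 (by decide) (by decide) k (by omega)
    have hp : dd1 k (hz m (i + 1) 3 * hz m (i + 2) 2 * hz m (i + 3) 1 -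
          hz m (i + 1) 3 * hz m (i + 2) 3 - hz m (i + 1) 4 * hz m (i + 2) 1 * hz m (i + 3) 1 +
          hz m (i + 1) 5 * hz m (i + 2) 1) = r3 m (i + 1) (i + 2) (i + 3) 3 := by
      simp only [dd1_add, dd1_sub, dd1_mul, e1, e2, e3, f1, r3]
      have g1 := hz_succ (m := m) (i + 2) 1
      have g2 := hz_succ (m := m) (i + 2) 2
      norm_num [add_assoc, hz_zero_right] at g1 g2 ⊢
      linear_combination hz m (i + 1) 3 * hz m (i + 3) 1 * g1 - hz m (i + 1) 3 * g2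
    rw [hmul, hp]
    exact r_isSchub_311 i h
  have c2 : ∀ k : Fin m, (k : ℕ) = i + 2 →
      IsSchub (vb m [(i, 3), (i + 1, 2), (i + 2, 1)] * sg k)
        (dd1 k (hz m (i + 1) 3 * hz m (i + 2) 2 * hz m (i + 3) 1 -
          hz m (i + 1) 3 * hz m (i + 2) 3 - hz m (i + 1) 4 * hz m (i + 2) 1 * hz m (i + 3) 1 +
          hz m (i + 1) 5 * hz m (i + 2) 1)) := by
    intro k hk
    have e1 := fun a => dd1_hz_ne (m := m) k (i + 1) (by omega) a
    have e2 := fun a => dd1_hz_ne (m := m) k (i + 2) (by omega) a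
    have e3 := fun a => dd1_hz_eq (m := m) k (i + 3) (by omega) a
    have f1 := fun a => pact_hz (m := m) k (i + 1) a (by omega)
    have f2 := fun a => pact_hz (m := m) k (i + 2) a (by omega)
    have hmul : vb m [(i, 3), (i + 1, 2), (i + 2, 1)] * sg k = vb m [(i, 3), (i + 1, 2)] :=
      vb_mul_window 3 i h [(0, 3), (1, 2), (2, 1)] [(0, 3), (1, 2)] (by decide)
        (by decide) 2 (by decide) (by decide) k (by omega)
    have hp : dd1 k (hz m (i + 1) 3 * hz m (i + 2) 2 * hz m (i + 3) 1 -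
          hz m (i + 1) 3 * hz m (i + 2) 3 - hz m (i + 1) 4 * hz m (i + 2) 1 * hz m (i + 3) 1 +
          hz m (i + 1) 5 * hz m (i + 2) 1) =
        hz m (i + 1) 3 * hz m (i + 2) 2 - hz m (i + 1) 4 * hz m (i + 2) 1 := by
      simp only [dd1_add, dd1_sub, dd1_mul, e1, e2, e3, map_mul, f1, f2]
      norm_num [hz_zero_right, add_assoc]
    rw [hmul, hp]
    exact isSchub_32 i h
  refine isSchub_weak _ _ 5 hinv hhom (fun k => ?_) ⟨⟨i, by omega⟩, c0 _ rfl⟩
  by_cases h0 : (k : ℕ) = i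
  · exact .inr (c0 k h0)
  by_cases h1 : (k : ℕ) = i + 1
  · exact .inr (c1 k h1)
  by_cases h2 : (k : ℕ) = i + 2
  · exact .inr (c2 k h2)
  left
  have e1 := fun a => dd1_hz_ne (m := m) k (i + 1) (by omega) a
  have e2 := fun a => dd1_hz_ne (m := m) k (i + 2) (by omega) a
  have e3 := fun a => dd1_hz_ne (m := m) k (i + 3) (by omega) a
  simp only [dd1_add, dd1_sub, dd1_mul, e1, e2, e3]
  simp

end H50R
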